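import Mathlib

/-!
# The averaging argument: few steps are almost always changes
-/

open Finset

namespace Pool.Agent.H78.FG

/-- re-choosing one coordinate -/
lemma sum_update {R : ℕ} {Ω : Type} [Fintype Ω] (t : Fin R) (f : (Fin R → Ω) → ℝ) :
    ∑ y : Fin R → Ω, ∑ ω : Ω, f (Function.update y t ω) = Fintype.card Ω * ∑ y, f y := by
  classical
  have h1 : ∑ y : Fin R → Ω, ∑ ω : Ω, f (Function.update y t ω) =
      ∑ q : (Fin R → Ω) × Ω, f (Function.update q.1 t q.2) := by
    rw [Fintype.sum_prod_type]
  have h2 : (Fintype.card Ω : ℝ) * ∑ y, f y = ∑ q : (Fin R → Ω) × Ω, f q.1 := by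
    rw [Fintype.sum_prod_type, mul_sum]
    refine sum_congr rfl fun y _ => ?_
    simp only
    rw [sum_const, card_univ, nsmul_eq_mul]
  rw [h1, h2]
  refine Fintype.sum_bijective (fun q : (Fin R → Ω) × Ω => (Function.update q.1 t q.2, q.1 t)) ?_ _ _
    fun q => rfl
  refine Function.Involutive.bijective fun q => ?_
  refine Prod.ext ?_ ?_
  · simp
  · simp

/-- the averaging argument -/
theorem avg {R K : ℕ} {Ω X : Type} [Fintype Ω] [Fintype X] (hK : 0 < K)
    (ch : Fin R → (Fin R → Ω) → Prop) (acc : Fin R → (Fin R → Ω) → X → Prop)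
    [∀ t, DecidablePred (ch t)] [∀ t y, DecidablePred (acc t y)] (p : ℝ) (hp : 0 ≤ p)
    (hacc : ∀ (t : Fin R) (y : Fin R → Ω),
      Fintype.card Ω ≤ K * (univ.filter fun ω : Ω => ¬ ch t (Function.update y t ω)).card →
      ((univ.filter fun x => acc t y x).card : ℝ) ≤ p * Fintype.card X) :
    (1 - 1 / (K : ℝ)) * ∑ t : Fin R, ∑ y : Fin R → Ω, ((univ.filter fun x => acc t y x).card : ℝ) ≤
      p * R * (Fintype.card Ω : ℝ) ^ R * Fintype.card X +
        Fintype.card X * ∑ y : Fin R → Ω, ((univ.filter fun t => ch t y).card : ℝ) := by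
  classical
  have hKR : (0 : ℝ) < K := by exact_mod_cast hK
  have hK1 : 0 ≤ 1 - 1 / (K : ℝ) := by
    rw [sub_nonneg, div_le_one hKR]
    exact_mod_cast hK
  have hX0 : (0 : ℝ) ≤ Fintype.card X := Nat.cast_nonneg _
  -- pointwise
  have hpt : ∀ (t : Fin R) (y : Fin R → Ω),
      (1 - 1 / (K : ℝ)) * (Fintype.card Ω * ((univ.filter fun x => acc t y x).card : ℝ)) ≤
        Fintype.card Ω * (p * Fintype.card X) +
          Fintype.card X * ∑ ω : Ω, if ch t (Function.update y t ω) then (1 : ℝ) else 0 := by
    intro t y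
    have hsum : ∑ ω : Ω, (if ch t (Function.update y t ω) then (1 : ℝ) else 0) =
        ((univ.filter fun ω : Ω => ch t (Function.update y t ω)).card : ℝ) := by
      rw [card_filter]
      push_cast
      rfl
    have hadd : ((univ.filter fun ω : Ω => ch t (Function.update y t ω)).card : ℝ) +
        (univ.filter fun ω : Ω => ¬ ch t (Function.update y t ω)).card = Fintype.card Ω := by
      have := card_filter_add_card_filter_not (s := (univ : Finset Ω))
        (fun ω : Ω => ch t (Function.update y t ω))
      rw [card_univ] at this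
      exact_mod_cast this
    rw [hsum]
    set a : ℝ := ((univ.filter fun ω : Ω => ch t (Function.update y t ω)).card : ℝ)
    set b : ℝ := ((univ.filter fun ω : Ω => ¬ ch t (Function.update y t ω)).card : ℝ) with hb
    have ha0 : 0 ≤ a := Nat.cast_nonneg _
    have hle : ((univ.filter fun x => acc t y x).card : ℝ) ≤ Fintype.card X := by
      exact_mod_cast card_le_univ _
    have hnn : (0 : ℝ) ≤ ((univ.filter fun x => acc t y x).card : ℝ) := Nat.cast_nonneg _
    have hΩ0 : (0 : ℝ) ≤ Fintype.card Ω := Nat.cast_nonneg _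
    by_cases hy : Fintype.card Ω ≤ K * (univ.filter fun ω : Ω => ¬ ch t (Function.update y t ω)).card
    · have h1 := hacc t y hy
      have h2 : (1 - 1 / (K : ℝ)) * (Fintype.card Ω * ((univ.filter fun x => acc t y x).card : ℝ)) ≤
          1 * (Fintype.card Ω * ((univ.filter fun x => acc t y x).card : ℝ)) := by
        refine mul_le_mul_of_nonneg_right ?_ (by positivity)
        have : 0 ≤ 1 / (K : ℝ) := by positivity
        linarith
      have h3 : (Fintype.card Ω : ℝ) * ((univ.filter fun x => acc t y x).card : ℝ) ≤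
          Fintype.card Ω * (p * Fintype.card X) := mul_le_mul_of_nonneg_left h1 hΩ0
      have h4 : 0 ≤ Fintype.card X * a := mul_nonneg hX0 ha0
      linarith
    · rw [not_le] at hy
      have hyR : (K : ℝ) * b < Fintype.card Ω := by
        rw [hb]
        exact_mod_cast hy
      have h1 : (1 - 1 / (K : ℝ)) * Fintype.card Ω ≤ a := by
        have h2 : b ≤ Fintype.card Ω / K := by
          rw [le_div_iff₀ hKR]
          linarith
        have h3 : (1 - 1 / (K : ℝ)) * Fintype.card Ω = Fintype.card Ω - Fintype.card Ω / K := by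
          field_simp
        rw [h3]
        linarith
      have h2 : (1 - 1 / (K : ℝ)) * (Fintype.card Ω * ((univ.filter fun x => acc t y x).card : ℝ)) ≤
          Fintype.card X * a := by
        calc (1 - 1 / (K : ℝ)) * (Fintype.card Ω * ((univ.filter fun x => acc t y x).card : ℝ))
            = ((1 - 1 / (K : ℝ)) * Fintype.card Ω) * ((univ.filter fun x => acc t y x).card : ℝ) := by
              ring
          _ ≤ a * Fintype.card X := mul_le_mul h1 hle hnn ha0
          _ = Fintype.card X * a := mul_comm _ _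
      have h3 : 0 ≤ (Fintype.card Ω : ℝ) * (p * Fintype.card X) := by positivity
      linarith
  rcases isEmpty_or_nonempty Ω with hΩ | hΩ
  · -- no colourings
    rcases Nat.eq_zero_or_pos R with rfl | hR
    · simp only [univ_eq_empty, sum_empty, mul_zero]
      have h1 : 0 ≤ ∑ y : Fin 0 → Ω, ((univ.filter fun t => ch t y).card : ℝ) :=
        sum_nonneg fun _ _ => Nat.cast_nonneg _
      positivity
    · have : IsEmpty (Fin R → Ω) := ⟨fun y => hΩ.false (y ⟨0, hR⟩)⟩
      simp only [univ_eq_empty, sum_empty, sum_const_zero, mul_zero]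
      positivity
  have hΩpos : (0 : ℝ) < Fintype.card Ω := by exact_mod_cast Fintype.card_pos
  have hsum : (1 - 1 / (K : ℝ)) * (Fintype.card Ω *
      ∑ t : Fin R, ∑ y : Fin R → Ω, ((univ.filter fun x => acc t y x).card : ℝ)) ≤
      ∑ t : Fin R, ∑ y : Fin R → Ω, (Fintype.card Ω * (p * Fintype.card X) +
          Fintype.card X * ∑ ω : Ω, if ch t (Function.update y t ω) then (1 : ℝ) else 0) := by
    rw [mul_sum, mul_sum]
    refine sum_le_sum fun t _ => ?_
    rw [mul_sum, mul_sum]
    exact sum_le_sum fun y _ => hpt t y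
  have hrhs : ∑ t : Fin R, ∑ y : Fin R → Ω, (Fintype.card Ω * (p * Fintype.card X) +
          Fintype.card X * ∑ ω : Ω, if ch t (Function.update y t ω) then (1 : ℝ) else 0) =
      Fintype.card Ω * (p * R * (Fintype.card Ω : ℝ) ^ R * Fintype.card X +
        Fintype.card X * ∑ y : Fin R → Ω, ((univ.filter fun t => ch t y).card : ℝ)) := by
    have h1 : ∀ t : Fin R, ∑ y : Fin R → Ω, (Fintype.card Ω * (p * Fintype.card X) +
          Fintype.card X * ∑ ω : Ω, if ch t (Function.update y t ω) then (1 : ℝ) else 0) =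
        (Fintype.card Ω : ℝ) ^ R * (Fintype.card Ω * (p * Fintype.card X)) +
          Fintype.card X * (Fintype.card Ω * ∑ y : Fin R → Ω, if ch t y then (1 : ℝ) else 0) := by
      intro t
      rw [sum_add_distrib, ← mul_sum _ _ (Fintype.card X : ℝ),
        sum_update t fun y => if ch t y then (1 : ℝ) else 0,
        sum_const, card_univ, Fintype.card_fun, Fintype.card_fin, nsmul_eq_mul]
      push_cast
      rfl
    rw [sum_congr rfl fun t _ => h1 t, sum_add_distrib, sum_const, card_univ, Fintype.card_fin,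
      nsmul_eq_mul, ← mul_sum, ← mul_sum, sum_comm]
    have h2 : ∀ y : Fin R → Ω, ∑ t : Fin R, (if ch t y then (1 : ℝ) else 0) =
        ((univ.filter fun t => ch t y).card : ℝ) := by
      intro y
      rw [card_filter]
      push_cast
      rfl
    rw [sum_congr rfl fun y _ => h2 y]
    ring
  rw [hrhs] at hsum
  have h3 : Fintype.card Ω * ((1 - 1 / (K : ℝ)) *
      ∑ t : Fin R, ∑ y : Fin R → Ω, ((univ.filter fun x => acc t y x).card : ℝ)) ≤
      Fintype.card Ω * (p * R * (Fintype.card Ω : ℝ) ^ R * Fintype.card X +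
        Fintype.card X * ∑ y : Fin R → Ω, ((univ.filter fun t => ch t y).card : ℝ)) := by
    calc _ = (1 - 1 / (K : ℝ)) * (Fintype.card Ω *
      ∑ t : Fin R, ∑ y : Fin R → Ω, ((univ.filter fun x => acc t y x).card : ℝ)) := by ring
      _ ≤ _ := hsum
  exact le_of_mul_le_mul_left h3 hΩpos

end Pool.Agent.H78.FG
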