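import Pool.Agent.H78.FG.Shadow

/-!
# Bounds for the number of changes along rising sequences of formulas
-/

open Finset Pool.Agent.H1.Mono

namespace Pool.Agent.H78.FG

lemma card_changes (L : ℕ) (p : ℕ → Prop) [DecidablePred p] :
    Nat.card {i : ℕ // i < L ∧ p i} = ((range L).filter p).card := by
  refine Nat.subtype_card _ fun i => ?_
  simp

/-- steps at which distinct clauses are altered -/
lemma card_clauses {n m L : ℕ} {M : Finset (Fin m)} {A : ℕ → Formula n m} (hA : Rising M A L)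
    (V : Finset ℕ)
    (J : Finset (Fin m)) (hV : ∀ i ∈ V, i < L ∧ ∃ j ∈ J, ∃ l, A i (j, l) ≠ A (i + 1) (j, l)) :
    V.card ≤ J.card := by
  classical
  refine card_le_card_of_forall_subsingleton (fun i j => ∃ l, A i (j, l) ≠ A (i + 1) (j, l))
    (fun i hi => (hV i hi).2) ?_
  intro j _ i hi i' hi'
  exact hA.2.2 j i (hV i hi.1).1 i' (hV i' hi'.1).1 hi.2 hi'.2

/-- every circuit changes at most `|M|` times along a rising sequence -/
theorem changes_le {n m s L : ℕ} (C : FCircuit (Fin m × (Fin n × Bool)) s) {M : Finset (Fin m)}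
    {A : ℕ → Formula n m} (hA : Rising M A L) : C.changes A L ≤ M.card := by
  classical
  unfold FCircuit.changes
  rw [card_changes]
  refine card_clauses hA ((range L).filter fun i => ¬ C.Same (A i) (A (i + 1))) M ?_
  intro i hi
  rw [mem_filter, mem_range] at hi
  refine ⟨hi.1, ?_⟩
  by_contra hno
  push Not at hno
  apply hi.2
  have h2 : A i = A (i + 1) := funext fun ⟨j, l⟩ => by
    by_contra hne
    exact hne (hno j (hA.2.1 i hi.1 j l hne) l)
  rw [h2]
  exact FCircuit.Same.refl _ _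

/-- a sequence of truth values which can only fall at the times in `V` rises at most `|V| + 1`
times -/
lemma card_rises (L : ℕ) (b : ℕ → Prop) (V U : Finset ℕ) (hU : ∀ i ∈ U, i < L ∧ i ∉ V ∧ ¬ b i ∧ b (i + 1))
    (hmono : ∀ i < L, i ∉ V → b i → b (i + 1)) : U.card ≤ V.card + 1 := by
  classical
  have h1 : ∑ i ∈ range L, ((if b (i + 1) then (1 : ℤ) else 0) - if b i then 1 else 0) ≤ 1 := by
    rw [sum_range_sub (fun i => if b i then (1 : ℤ) else 0)]
    split_ifs <;> norm_num
  have h2 : ∑ i ∈ range L, ((if i ∈ U then (1 : ℤ) else 0) - if i ∈ V then 1 else 0) ≤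
      ∑ i ∈ range L, ((if b (i + 1) then (1 : ℤ) else 0) - if b i then 1 else 0) := by
    refine sum_le_sum fun i hi => ?_
    rw [mem_range] at hi
    by_cases hiU : i ∈ U
    · obtain ⟨-, h3, h4, h5⟩ := hU i hiU
      rw [if_pos hiU, if_neg h3, if_pos h5, if_neg h4]
    · rw [if_neg hiU]
      by_cases hiV : i ∈ V
      · rw [if_pos hiV]
        split_ifs <;> norm_num
      · rw [if_neg hiV]
        by_cases h3 : b i
        · rw [if_pos h3, if_pos (hmono i hi hiV h3)]
          norm_num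
        · rw [if_neg h3]
          split_ifs <;> norm_num
  have h3 : (U.card : ℤ) = ∑ i ∈ range L, if i ∈ U then (1 : ℤ) else 0 := by
    rw [sum_ite_mem, inter_eq_right.2 fun i hi => mem_range.2 (hU i hi).1, sum_const, nsmul_eq_mul,
      mul_one]
  have h4 : ∑ i ∈ range L, (if i ∈ V then (1 : ℤ) else 0) ≤ V.card := by
    rw [sum_ite_mem, sum_const, nsmul_eq_mul, mul_one]
    exact_mod_cast card_le_card inter_subset_right
  rw [sum_sub_distrib] at h2
  have h5 : (U.card : ℤ) ≤ V.card + 1 := by linarith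
  exact_mod_cast h5

/-- values of gates only increase as long as the watched gates of smaller levels do not change -/
lemma FCircuit.mono_of_same {ι : Type} {s : ℕ} (C : FCircuit ι s) {lev : Fin s → ℕ}
    (hlev : C.Levels lev) {Z A : ι → Bool} (hZA : ∀ i, Z i = true → A i = true)
    (hR : ∀ i, C.Read i → Z i = A i) {j : ℕ}
    (hM : ∀ u, C.Arg u → lev u < j → (C.Val Z u ↔ C.Val A u)) (t : Fin s) (ht : lev t ≤ j)
    (hv : C.Val Z t) : C.Val A t := by
  induction t using WellFoundedLT.induction with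
  | ind t ih =>
    by_cases hf : C.free t = true
    · rw [C.val_free _ hf] at hv ⊢
      have e1 : {i | i ∈ C.ins t ∧ Z i = true} = {i | i ∈ C.ins t ∧ A i = true} := by
        ext i
        simp only [Set.mem_ofPred_eq]
        refine and_congr_right fun hi => ?_
        rw [hR i ⟨t, hf, hi⟩]
      have e2 : {u | u ∈ C.gates t ∧ C.Val Z u} = {u | u ∈ C.gates t ∧ C.Val A u} := by
        ext u
        simp only [Set.mem_ofPred_eq]
        refine and_congr_right fun hu => ?_
        exact hM u ⟨t, hf, hu⟩ (lt_of_lt_of_le ((hlev t u hu).2 hf) ht)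
      rw [e1, e2] at hv
      exact hv
    · by_cases ha : C.isAnd t = true
      · rw [C.val_and _ hf ha] at hv ⊢
        exact ⟨fun i hi => hZA i (hv.1 i hi), fun u hu =>
          ih u (C.lt t u hu) ((hlev t u hu).1.trans ht) (hv.2 u hu)⟩
      · rw [C.val_or _ hf ha] at hv ⊢
        rcases hv with ⟨i, hi, h⟩ | ⟨u, hu, h⟩
        · exact Or.inl ⟨i, hi, hZA i h⟩
        · exact Or.inr ⟨u, hu, ih u (C.lt t u hu) ((hlev t u hu).1.trans ht) h⟩

/-- Markov's bound for the steps in which an argument of a free gate changes -/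
theorem steps_level {n m s L : ℕ} (C : FCircuit (Fin m × (Fin n × Bool)) s)
    {M : Finset (Fin m)} {A : ℕ → Formula n m} (hA : Rising M A L) (lev : Fin s → ℕ) (hlev : C.Levels lev) :
    ∃ V : Finset ℕ, (∀ i, i ∈ V ↔ i < L ∧ ((∃ l, C.Read l ∧ A i l ≠ A (i + 1) l) ∨
        ∃ u, C.Arg u ∧ ¬ (C.Val (A i) u ↔ C.Val (A (i + 1)) u))) ∧
      V.card + 1 ≤ C.weight M lev := by
  classical
  have hstep : ∀ j : ℕ, ∃ V : Finset ℕ, (∀ i, i ∈ V ↔ i < L ∧
      ((∃ l, C.Read l ∧ A i l ≠ A (i + 1) l) ∨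
        ∃ u, C.Arg u ∧ lev u < j ∧ ¬ (C.Val (A i) u ↔ C.Val (A (i + 1)) u))) ∧
      V.card + 1 ≤ (Nat.card {j : Fin m // j ∈ M ∧ ∃ l, C.Read (j, l)} + 1) *
        ∏ i ∈ range j, (Nat.card {u : Fin s // C.Arg u ∧ lev u = i} + 1) := by
    intro j
    induction j with
    | zero =>
      refine ⟨(range L).filter fun i => (∃ l, C.Read l ∧ A i l ≠ A (i + 1) l) ∨
        ∃ u, C.Arg u ∧ lev u < 0 ∧ ¬ (C.Val (A i) u ↔ C.Val (A (i + 1)) u), fun i => by simp, ?_⟩
      rw [range_zero, prod_empty, mul_one]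
      refine Nat.add_le_add_right ?_ 1
      have h1 : Nat.card {j : Fin m // j ∈ M ∧ ∃ l, C.Read (j, l)} =
          (univ.filter fun j : Fin m => j ∈ M ∧ ∃ l, C.Read (j, l)).card :=
        Nat.subtype_card _ fun i => by simp
      rw [h1]
      refine card_clauses hA _ _ fun i hi => ?_
      rw [mem_filter, mem_range] at hi
      refine ⟨hi.1, ?_⟩
      rcases hi.2 with ⟨⟨j, l⟩, h2, h3⟩ | ⟨u, -, h2, -⟩
      · exact ⟨j, mem_filter.2 ⟨mem_univ _, hA.2.1 i hi.1 j l h3, l, h2⟩, l, h3⟩
      · exact absurd h2 (Nat.not_lt_zero _)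
    | succ j ih =>
      obtain ⟨V, hV1, hV2⟩ := ih
      set W : Finset (Fin s) := univ.filter fun u => C.Arg u ∧ lev u = j with hW
      have hWc : Nat.card {u : Fin s // C.Arg u ∧ lev u = j} = W.card :=
        Nat.subtype_card _ fun i => by simp [hW]
      let U : Fin s → Finset ℕ := fun w => (range L).filter fun i =>
        i ∉ V ∧ ¬ C.Val (A i) w ∧ C.Val (A (i + 1)) w
      have hup : ∀ i < L, i ∉ V → ∀ w, lev w = j → C.Val (A i) w → C.Val (A (i + 1)) w := by
        intro i hi hiV w hw hv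
        refine C.mono_of_same hlev (j := j) (fun l => hA.1 i hi l) ?_ ?_ w hw.le hv
        · intro l hl
          by_contra hne
          exact hiV ((hV1 i).2 ⟨hi, Or.inl ⟨l, hl, hne⟩⟩)
        · intro u hu hlu
          by_contra hne
          exact hiV ((hV1 i).2 ⟨hi, Or.inr ⟨u, hu, hlu, hne⟩⟩)
      have hUc : ∀ w ∈ W, (U w).card ≤ V.card + 1 := by
        intro w hw
        have hw2 := (mem_filter.1 hw).2
        refine card_rises L (fun i => C.Val (A i) w) V (U w) ?_ ?_
        · intro i hi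
          rw [mem_filter, mem_range] at hi
          exact hi
        · exact fun i hi hiV hv => hup i hi hiV w hw2.2 hv
      refine ⟨(range L).filter fun i => (∃ l, C.Read l ∧ A i l ≠ A (i + 1) l) ∨
        ∃ u, C.Arg u ∧ lev u < j + 1 ∧ ¬ (C.Val (A i) u ↔ C.Val (A (i + 1)) u),
        fun i => by simp, ?_⟩
      have hsub : ((range L).filter fun i => (∃ l, C.Read l ∧ A i l ≠ A (i + 1) l) ∨
          ∃ u, C.Arg u ∧ lev u < j + 1 ∧ ¬ (C.Val (A i) u ↔ C.Val (A (i + 1)) u)) ⊆
          V ∪ W.biUnion U := by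
        intro i hi
        rw [mem_filter, mem_range] at hi
        obtain ⟨hiL, hi2⟩ := hi
        rw [mem_union]
        by_cases hiV : i ∈ V
        · exact Or.inl hiV
        · right
          rcases hi2 with h1 | ⟨u, hu, hlu, hne⟩
          · exact absurd ((hV1 i).2 ⟨hiL, Or.inl h1⟩) hiV
          · have hlj : lev u = j := by
              by_contra hlne
              exact hiV ((hV1 i).2 ⟨hiL, Or.inr ⟨u, hu, by omega, hne⟩⟩)
            rw [mem_biUnion]
            refine ⟨u, mem_filter.2 ⟨mem_univ _, hu, hlj⟩, ?_⟩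
            have hup' := hup i hiL hiV u hlj
            rw [mem_filter, mem_range]
            refine ⟨hiL, hiV, ?_, ?_⟩
            · intro hv
              exact hne ⟨fun _ => hup' hv, fun _ => hv⟩
            · by_contra hv
              exact hne ⟨hup', fun h2 => absurd h2 hv⟩
      have h2 := (card_le_card hsub).trans (card_union_le _ _)
      have h3 : (W.biUnion U).card ≤ W.card * (V.card + 1) :=
        card_biUnion_le_card_mul _ _ _ hUc
      rw [prod_range_succ, ← mul_assoc, hWc]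
      calc _ ≤ V.card + W.card * (V.card + 1) + 1 := by omega
        _ = (V.card + 1) * (W.card + 1) := by ring
        _ ≤ _ := Nat.mul_le_mul_right _ hV2
  obtain ⟨h, hh⟩ : ∃ h, ∀ u, lev u < h :=
    ⟨univ.sup lev + 1, fun u => Nat.lt_succ_of_le (le_sup (mem_univ u))⟩
  obtain ⟨V, hV1, hV2⟩ := hstep h
  refine ⟨V, fun i => ?_, hV2.trans (le_of_eq ?_)⟩
  · rw [hV1]
    refine and_congr_right fun _ => or_congr_right ?_
    constructor
    · rintro ⟨u, h1, -, h2⟩
      exact ⟨u, h1, h2⟩
    · rintro ⟨u, h1, h2⟩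
      exact ⟨u, h1, hh u, h2⟩
  · unfold FCircuit.weight
    congr 1
    symm
    refine prod_subset ?_ ?_
    · intro i hi
      obtain ⟨u, -, rfl⟩ := mem_image.1 hi
      exact mem_range.2 (hh u)
    · intro i _ hi
      have h0 : Nat.card {u : Fin s // C.Arg u ∧ lev u = i} = 0 := by
        rw [Nat.card_eq_zero]
        left
        exact ⟨fun u => hi (mem_image.2 ⟨u.1, mem_univ _, u.2.2⟩)⟩
      rw [h0, zero_add]

lemma changes_eq {n m s L : ℕ} (C : FCircuit (Fin m × (Fin n × Bool)) s) (A : ℕ → Formula n m)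
    (V : Finset ℕ) (hV : ∀ i, i ∈ V ↔ i < L ∧ ((∃ l, C.Read l ∧ A i l ≠ A (i + 1) l) ∨
        ∃ u, C.Arg u ∧ ¬ (C.Val (A i) u ↔ C.Val (A (i + 1)) u))) (U : Finset ℕ)
    (hU : ∀ i < L, i ∉ V → ¬ (C.Accepts (A i) ↔ C.Accepts (A (i + 1))) → i ∈ U) :
    C.changes A L ≤ V.card + U.card := by
  classical
  unfold FCircuit.changes
  rw [card_changes]
  refine (card_le_card (t := V ∪ U) fun i hi => ?_).trans (card_union_le _ _)
  rw [mem_filter, mem_range] at hi
  rw [mem_union]
  by_cases hiV : i ∈ V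
  · exact Or.inl hiV
  right
  refine hU i hi.1 hiV fun hacc => hi.2 ⟨fun l hl => ?_, fun u hu => ?_, hacc⟩
  · by_contra hne
    exact hiV ((hV i).2 ⟨hi.1, Or.inl ⟨l, hl, hne⟩⟩)
  · by_contra hne
    exact hiV ((hV i).2 ⟨hi.1, Or.inr ⟨u, hu, hne⟩⟩)

/-- Markov's bound -/
theorem changes_level {n m s L : ℕ} (C : FCircuit (Fin m × (Fin n × Bool)) s)
    {M : Finset (Fin m)} {A : ℕ → Formula n m} (hA : Rising M A L) (lev : Fin s → ℕ)
    (hlev : C.Levels lev) : C.changes A L + 1 ≤ 2 * C.weight M lev := by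
  classical
  obtain ⟨V, hV1, hV2⟩ := steps_level C hA lev hlev
  have h1 : ((range L).filter fun i => i ∉ V ∧ ¬ C.Accepts (A i) ∧ C.Accepts (A (i + 1))).card ≤
      V.card + 1 := by
    have hup : ∀ i < L, i ∉ V → C.Accepts (A i) → C.Accepts (A (i + 1)) := by
      intro i hi hiV hv
      refine C.mono_of_same hlev (j := lev C.out) (fun l => hA.1 i hi l) ?_ ?_ C.out le_rfl hv
      · intro l hl
        by_contra hne
        exact hiV ((hV1 i).2 ⟨hi, Or.inl ⟨l, hl, hne⟩⟩)
      · intro u hu _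
        by_contra hne
        exact hiV ((hV1 i).2 ⟨hi, Or.inr ⟨u, hu, hne⟩⟩)
    refine card_rises L (fun i => C.Accepts (A i)) V _ ?_ hup
    intro i hi
    rw [mem_filter, mem_range] at hi
    exact hi
  have h2 := changes_eq C A V hV1
    ((range L).filter fun i => i ∉ V ∧ ¬ C.Accepts (A i) ∧ C.Accepts (A (i + 1))) ?_
  · omega
  · intro i hi hiV hne
    have hup : C.Accepts (A i) → C.Accepts (A (i + 1)) := by
      intro hv
      refine C.mono_of_same hlev (j := lev C.out) (fun l => hA.1 i hi l) ?_ ?_ C.out le_rfl hv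
      · intro l hl
        by_contra hne
        exact hiV ((hV1 i).2 ⟨hi, Or.inl ⟨l, hl, hne⟩⟩)
      · intro u hu _
        by_contra hne
        exact hiV ((hV1 i).2 ⟨hi, Or.inr ⟨u, hu, hne⟩⟩)
    rw [mem_filter, mem_range]
    refine ⟨hi, hiV, ?_, ?_⟩
    · intro hv
      exact hne ⟨fun _ => hup hv, fun _ => hv⟩
    · by_contra hv
      exact hne ⟨hup, fun h2 => absurd h2 hv⟩

/-- Markov's bound for a circuit whose output does not change -/
theorem changes_const {n m s L : ℕ} (C : FCircuit (Fin m × (Fin n × Bool)) s)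
    {M : Finset (Fin m)} {A : ℕ → Formula n m} (hA : Rising M A L) (lev : Fin s → ℕ)
    (hlev : C.Levels lev) (hout : ∀ i, ¬ C.Accepts (A i)) :
    C.changes A L + 1 ≤ C.weight M lev := by
  classical
  obtain ⟨V, hV1, hV2⟩ := steps_level C hA lev hlev
  have h2 := changes_eq C A V hV1 ∅ ?_
  · rw [card_empty] at h2
    omega
  · intro i _ _ hne
    exact absurd ⟨fun h => absurd h (hout i), fun h => absurd h (hout _)⟩ hne

end Pool.Agent.H78.FG
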