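import Pool.Agent.H78.FG.Copy
import Pool.Agent.H78.FG.Level
import Pool.Agent.H78.FG.Avg

/-!
# The lower bound for circuits with free gates, with all parameters
-/

open Finset Pool.Agent.H1.Mono

namespace Pool.Agent.H78.FG

lemma card_lt_fin (L : ℕ) (p : ℕ → Prop) [DecidablePred fun t : Fin L => p t.1] :
    Nat.card {i : ℕ // i < L ∧ p i} = (univ.filter fun t : Fin L => p t.1).card := by
  classical
  rw [card_changes]
  refine (card_bij (fun (t : Fin L) _ => t.1) ?_ ?_ ?_).symm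
  · intro t ht
    rw [mem_filter, mem_range]
    exact ⟨t.2, (mem_filter.1 ht).2⟩
  · intro t _ t' _ h
    exact Fin.ext h
  · intro i hi
    rw [mem_filter, mem_range] at hi
    exact ⟨⟨i, hi.1⟩, mem_filter.2 ⟨mem_univ _, hi.2⟩, rfl⟩

/-- the sequence of the prefixes is rising -/
lemma rising_prefix {n m σ ν a b R : ℕ} (h : σ + ν * b ≤ n)
    {e : (Fin σ → Bool) × Row ν b → Fin m} (he : Function.Injective e) {M : Finset (Fin m)}
    (hM : ∀ p, e p ∈ M)
    (en : (Fin σ → Bool) ≃ Fin R) (y : Fin R → Fin ν → (Fin b → Bool) → Fin a → Bool) :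
    Rising M (fun t => form2 (n := n) h e (stAll en y t fun _ => 0)) R := by
  have hkey : ∀ (i : ℕ) (j : Fin m) (l : Fin n × Bool),
      form2 h e (stAll en y i fun _ => 0) (j, l) ≠ form2 h e (stAll en y (i + 1) fun _ => 0) (j, l) →
      ∃ τ r, e (τ, r) = j ∧ (en τ).1 = i := by
    intro i j l hne
    by_contra hno
    push Not at hno
    apply hne
    rw [Bool.eq_iff_iff, form2_true, form2_true]
    refine forall₃_congr fun τ r hr => ?_
    have h1 : stAll en y i (fun _ => 0) τ r = stAll en y (i + 1) (fun _ => 0) τ r := by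
      have h2 := hno τ r hr
      unfold stAll
      by_cases h3 : (en τ).1 < i
      · rw [if_pos h3, if_pos (by omega)]
      · rw [if_neg h3, if_neg h2, if_neg (by omega)]
        split_ifs <;> rfl
    rw [h1]
  refine ⟨fun i _ l hl => form2_mono h e (fun τ r => stAll_le_succ en y i τ r) l hl, ?_, ?_⟩
  · intro i _ j l hl
    obtain ⟨τ, r, hr, -⟩ := hkey i j l hl
    rw [← hr]
    exact hM _
  rintro j i _ i' _ ⟨l, hl⟩ ⟨l', hl'⟩
  obtain ⟨τ, r, hr, h1⟩ := hkey i j l hl
  obtain ⟨τ', r', hr', h1'⟩ := hkey i' j l' hl'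
  have h2 := he (hr.trans hr'.symm)
  rw [Prod.mk.injEq] at h2
  rw [← h1, ← h1', h2.1]

/-- the holes of all values -/
def hol {R ν a b : ℕ} (π : (Fin a → Bool) → Fin a → Bool)
    (y : Fin R → Fin ν → (Fin b → Bool) → Fin a → Bool) :
    Fin R → Fin ν → (Fin b → Bool) → Fin a → Bool := fun i j q => π (y i j q)

lemma hol_update {R ν a b : ℕ} (π : (Fin a → Bool) → Fin a → Bool)
    (y : Fin R → Fin ν → (Fin b → Bool) → Fin a → Bool) (t : Fin R)
    (ω : Fin ν → (Fin b → Bool) → Fin a → Bool) :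
    hol π (Function.update y t ω) = Function.update (hol π y) t fun j q => π (ω j q) := by
  funext i
  by_cases hi : i = t
  · subst hi
    funext j q
    simp [hol]
  · funext j q
    rw [Function.update_of_ne hi]
    simp only [hol]
    rw [Function.update_of_ne hi]

/-- the lower bound for circuits with free gates, with all parameters -/
theorem core (hFR : FR2_target) (hPART : PART_target)
    {n m σ ν h a b j0 Δ K : ℕ} {lam T0 : ℝ} {M : Finset (Fin m)}
    (hν : ν = h + 1) (hh : 2 ≤ h) (hh1 : h ≤ 2 ^ a) (hh2 : 2 ^ a ≤ 2 * h)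
    (hb : σ + ν * b ≤ n) (hm : 2 ^ σ * (ν ^ 2 * 4 ^ b) ≤ M.card) (hn : 0 < n)
    (hlam0 : 0 < lam) (hlam1 : lam < 1) (hT0 : 0 ≤ T0) (hΔ : 0 < Δ) (hK : 0 < K)
    (hj0 : 4 * K * j0 ^ 2 ≤ 2 ^ a) (hj0d : j0 ≤ h)
    (hpart0 : ∀ j : ℕ, j0 < j → j ≤ ν → ((2 ^ b : ℕ) : ℝ) ^ (ν - j) ≤ T0 * lam ^ j)
    (hlam : 32 * Δ * (ν : ℝ) ^ 2 * 4 ^ a * lam ≤ 1) :
    ∃ (κ X : Type) (_ : Fintype κ) (_ : Fintype X) (_ : Nonempty κ) (_ : Nonempty X)
      (A : κ → ℕ → Formula n m) (P : κ → ℕ → X → Formula n m),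
      (∀ k, Rising M (A k) (2 ^ σ)) ∧ (∀ k t, ¬ Satisfiable (A k t)) ∧
      (∀ k, ∀ t < 2 ^ σ, ∀ x, Satisfiable (P k t x)) ∧
      (∀ k t x l, A k t l = true → P k t x l = true) ∧
      (∀ k t, ∀ j ∉ M, ∀ l, A k t (j, l) = true) ∧
      (∀ k t, Narrow (σ + 2 * b) (A k t)) ∧ (∀ k t x, Narrow (σ + 2 * b) (P k t x)) ∧
      Fintype.card X = 2 ^ (b * ν) ∧
      ∀ (s : ℕ) (C : FCircuit (Fin m × (Fin n × Bool)) s),
        2 * K * ((s + 1) * (2 * 2 ^ b * 2 ^ a) ^ ν) < 2 ^ Δ →
        (1 - 1 / (K : ℝ)) * ∑ k, ∑ x, (Nat.card {t : ℕ // t < 2 ^ σ ∧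
            ¬ (C.Accepts (A k t) ↔ C.Accepts (P k t x))} : ℝ) ≤
          ((s + 1) * (1 / lam) ^ ν + T0) * 2 ^ σ * Fintype.card κ +
            Fintype.card X * ∑ k, (C.changes (A k) (2 ^ σ) : ℝ) := by
  classical
  obtain ⟨π, hπ⟩ := exists_holes hh1 hh2
  have hν0 : 0 < ν := by omega
  have hcard : Fintype.card ((Fin σ → Bool) × Row ν b) ≤ Fintype.card {j // j ∈ M} := by
    rw [Fintype.card_coe, Fintype.card_prod, Fintype.card_prod, Fintype.card_prod,
      Fintype.card_prod, Fintype.card_fun, Fintype.card_fun, Fintype.card_fin, Fintype.card_fin,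
      Fintype.card_fin, Fintype.card_bool]
    refine le_trans (le_of_eq ?_) hm
    rw [show (4 : ℕ) = 2 * 2 by norm_num, mul_pow 2 2 b]
    ring
  obtain ⟨e, he, heM⟩ : ∃ e : (Fin σ → Bool) × Row ν b → Fin m, Function.Injective e ∧
      ∀ p, e p ∈ M := by
    obtain ⟨e⟩ := Function.Embedding.nonempty_of_card_le hcard
    exact ⟨fun p => (e p).1, fun p q hpq => e.injective (Subtype.ext hpq), fun p => (e p).2⟩
  have en : (Fin σ → Bool) ≃ Fin (2 ^ σ) := Fintype.equivFinOfCardEq (by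
    rw [Fintype.card_fun, Fintype.card_fin, Fintype.card_bool])
  have hXcard : Fintype.card (Fin ν → Fin b → Bool) = 2 ^ (b * ν) := by
    rw [Fintype.card_fun, Fintype.card_fun, Fintype.card_fin, Fintype.card_fin,
      Fintype.card_bool, ← pow_mul]
  refine ⟨Fin (2 ^ σ) → Fin ν → (Fin b → Bool) → Fin a → Bool, Fin ν → Fin b → Bool,
    inferInstance, inferInstance,
    ⟨fun _ _ _ _ => false⟩, ⟨fun _ _ => false⟩,
    fun y t => form2 hb e (stAll en (hol π y) t fun _ => 0),
    fun y t x => form2 hb e (stAll en (hol π y) t (stP x)), ?_, ?_, ?_, ?_, ?_, ?_, ?_, hXcard, ?_⟩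
  · exact fun y => rising_prefix hb he heM en (hol π y)
  · exact fun y t => unsat_pre hν0 hb en (hol π y) t fun i X => php hπ (by omega) (y i) X
  · exact fun y t ht x => sat_plant hb hn he en (hol π y) ⟨t, ht⟩ x
  · exact fun y t x l hl => form2_mono hb e (fun τ r => stAll_zero_le en _ _ _ τ r) l hl
  · intro y t j hj l
    rw [form2_true]
    intro τ r hr
    have hr' : e (τ, r) = j := hr
    exact absurd (hr' ▸ heM (τ, r)) hj
  · exact fun y t => form2_narrow hb hn e _
  · exact fun y t x => form2_narrow hb hn e _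
  intro s C hs
  set Z : (Fin (2 ^ σ) → Fin ν → (Fin b → Bool) → Fin a → Bool) → ℕ → Formula n m :=
    fun y t => form2 hb e (stAll en (hol π y) t fun _ => 0) with hZ
  set PP : (Fin (2 ^ σ) → Fin ν → (Fin b → Bool) → Fin a → Bool) → ℕ → (Fin ν → Fin b → Bool) →
      Formula n m := fun y t x => form2 hb e (stAll en (hol π y) t (stP x)) with hPP
  set p : ℝ := ((s + 1) * (1 / lam) ^ ν + T0) / Fintype.card (Fin ν → Fin b → Bool) with hp
  have hXpos : (0 : ℝ) < Fintype.card (Fin ν → Fin b → Bool) := by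
    rw [hXcard]
    positivity
  have hp0 : 0 ≤ p := by
    rw [hp]
    positivity
  have hmono : ∀ y t l, Z y t l = true → Z y (t + 1) l = true := fun y t l hl =>
    form2_mono hb e (fun τ r => stAll_le_succ en (hol π y) t τ r) l hl
  -- the averaging argument
  have havg := avg (R := 2 ^ σ) (K := K) (Ω := Fin ν → (Fin b → Bool) → Fin a → Bool)
    (X := Fin ν → Fin b → Bool) hK
    (fun t y => ¬ C.Same (Z y t.1) (Z y (t.1 + 1)))
    (fun t y x => ¬ C.Same (Z y t.1) (PP y t.1 x)) p hp0 (by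
      intro t y hhalf
      rw [hp, div_mul_cancel₀ _ hXpos.ne']
      have hM : ∀ A : Formula n m, (∀ l, Z y t.1 l = true → A l = true) →
          ((C.shadow (Z y t.1)).Accepts A ↔ ¬ C.Same (Z y t.1) A) :=
        fun A hA => C.shadow_accepts hA
      have hup : ∀ ω : Fin ν → (Fin b → Bool) → Fin a → Bool,
          Z (Function.update y t ω) t.1 = Z y t.1 := by
        intro ω
        simp only [hZ]
        rw [stAll_congr en (y := hol π (Function.update y t ω)) (y' := hol π y)]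
        intro i hi
        rw [hol_update]
        exact Function.update_of_ne (fun h1 => by rw [h1] at hi; exact lt_irrefl _ hi) _ _
      have hsucc : ∀ ω : Fin ν → (Fin b → Bool) → Fin a → Bool,
          Z (Function.update y t ω) (t.1 + 1) =
          form2 hb e (stAll en (hol π y) t.1 (stU fun i q => π (ω i q))) := by
        intro ω
        simp only [hZ]
        rw [hol_update, stAll_succ]
      have h1 := zero_one_hole hFR hPART (K := K) hπ hν hh hb he en hlam0 hlam1 hT0 hΔ hj0 hj0d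
        hpart0 hlam hs (C.shadow (Z y t.1)) t (hol π y)
        (univ.filter fun ω : Fin ν → (Fin b → Bool) → Fin a → Bool =>
          ¬ ¬ C.Same (Z (Function.update y t ω) t.1)
          (Z (Function.update y t ω) (t.1 + 1))) ?_ hhalf
        (univ.filter fun x : Fin ν → Fin b → Bool => ¬ C.Same (Z y t.1) (PP y t.1 x)) ?_
      · push_cast at h1
        exact h1
      · intro ω hω
        have h2 := (mem_filter.1 hω).2
        rw [hup ω, hsucc ω] at h2
        have h3 : ∀ l, Z y t.1 l = true →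
            form2 hb e (stAll en (hol π y) t.1 (stU fun i q => π (ω i q))) l = true := by
          intro l hl
          have h4 := hmono (Function.update y t ω) t.1 l (by rw [hup ω]; exact hl)
          rwa [hsucc ω] at h4
        rw [hM _ h3]
        exact h2
      · intro x hx
        have h2 := (mem_filter.1 hx).2
        rw [hM]
        · exact h2
        · exact fun l hl => form2_mono hb e (fun τ r => stAll_zero_le en _ _ _ τ r) l hl)
  -- comparison of the two sides
  have hleft : ∑ y : Fin (2 ^ σ) → Fin ν → (Fin b → Bool) → Fin a → Bool,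
        ∑ x : Fin ν → Fin b → Bool, (Nat.card {t : ℕ // t < 2 ^ σ ∧
        ¬ (C.Accepts (Z y t) ↔ C.Accepts (PP y t x))} : ℝ) ≤
      ∑ t : Fin (2 ^ σ), ∑ y : Fin (2 ^ σ) → Fin ν → (Fin b → Bool) → Fin a → Bool,
        ((univ.filter fun x => ¬ C.Same (Z y t.1) (PP y t.1 x)).card : ℝ) := by
    rw [sum_comm (s := (univ : Finset (Fin (2 ^ σ))))]
    refine sum_le_sum fun y _ => ?_
    have h1 : ∑ x : Fin ν → Fin b → Bool, (Nat.card {t : ℕ // t < 2 ^ σ ∧
        ¬ (C.Accepts (Z y t) ↔ C.Accepts (PP y t x))} : ℝ) ≤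
        ∑ x : Fin ν → Fin b → Bool, ∑ t : Fin (2 ^ σ),
          (if ¬ C.Same (Z y t.1) (PP y t.1 x) then (1 : ℝ) else 0) := by
      refine sum_le_sum fun x _ => ?_
      rw [card_lt_fin (2 ^ σ) fun t => ¬ (C.Accepts (Z y t) ↔ C.Accepts (PP y t x)), card_filter]
      push_cast
      refine sum_le_sum fun t _ => ?_
      by_cases h2 : C.Accepts (Z y t.1) ↔ C.Accepts (PP y t.1 x)
      · rw [if_neg (not_not.2 h2)]
        split_ifs <;> norm_num
      · rw [if_pos h2, if_pos]
        exact fun h3 => h2 h3.2.2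
    refine h1.trans (le_of_eq ?_)
    rw [sum_comm]
    refine sum_congr rfl fun t _ => ?_
    rw [card_filter]
    push_cast
    rfl
  have hright : ∀ y : Fin (2 ^ σ) → Fin ν → (Fin b → Bool) → Fin a → Bool,
      ((univ.filter fun t : Fin (2 ^ σ) => ¬ C.Same (Z y t.1) (Z y (t.1 + 1))).card : ℝ) =
        (C.changes (Z y) (2 ^ σ) : ℝ) := by
    intro y
    unfold FCircuit.changes
    rw [card_lt_fin (2 ^ σ) fun t => ¬ C.Same (Z y t) (Z y (t + 1))]
  have hKR : (0 : ℝ) < K := by exact_mod_cast hK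
  have hK1 : 0 ≤ 1 - 1 / (K : ℝ) := by
    rw [sub_nonneg, div_le_one hKR]
    exact_mod_cast hK
  have hκ : (Fintype.card (Fin (2 ^ σ) → Fin ν → (Fin b → Bool) → Fin a → Bool) : ℝ) =
      (Fintype.card (Fin ν → (Fin b → Bool) → Fin a → Bool) : ℝ) ^ 2 ^ σ := by
    rw [Fintype.card_fun, Fintype.card_fin]
    push_cast
    rfl
  calc (1 - 1 / (K : ℝ)) * ∑ y : Fin (2 ^ σ) → Fin ν → (Fin b → Bool) → Fin a → Bool,
        ∑ x : Fin ν → Fin b → Bool,
        (Nat.card {t : ℕ // t < 2 ^ σ ∧ ¬ (C.Accepts (Z y t) ↔ C.Accepts (PP y t x))} : ℝ)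
      ≤ (1 - 1 / (K : ℝ)) * ∑ t : Fin (2 ^ σ), ∑ y : Fin (2 ^ σ) → Fin ν → (Fin b → Bool) →
        Fin a → Bool, ((univ.filter fun x => ¬ C.Same (Z y t.1) (PP y t.1 x)).card : ℝ) :=
        mul_le_mul_of_nonneg_left hleft hK1
    _ ≤ _ := havg
    _ = _ := by
        rw [sum_congr rfl fun y _ => hright y, hκ, hp]
        push_cast
        field_simp

end Pool.Agent.H78.FG
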