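import Pool.Agent.H1.Mono.Core2

/-!
# The zero-one law for one copy, for circuits rejecting a fraction `1 / K` of the inputs
-/

open Finset Pool.Agent.H1.Mono

namespace Pool.Agent.H78.FG

/-- the zero-one law: a monotone circuit rejecting at least a fraction `1 / K` of the inputs `B y`
accepts few of the inputs `A x` -/
theorem zero_one_K (hFR : FR2_target) (hPART : PART_target) {ν s d Δ a j0 K : ℕ} {Q ι : Type}
    [Fintype Q] [DecidableEq Q] {H : Finset (Fin ν) → (Fin ν → Fin a → Bool) → Prop}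
    {lam T T0 : ℝ} (hH : Dup2 d H) (hlam0 : 0 < lam) (hlam1 : lam < 1)
    (hT : 0 ≤ T) (hT0 : 0 ≤ T0) (hΔ : 0 < Δ) (hj0 : j0 ≤ d)
    (hpart : ∀ j : ℕ, d < j → j ≤ ν → (Fintype.card Q : ℝ) ^ (ν - j) ≤ T * lam ^ j)
    (hpart0 : ∀ j : ℕ, j0 < j → j ≤ ν → (Fintype.card Q : ℝ) ^ (ν - j) ≤ T0 * lam ^ j)
    (hlam : 32 * Δ * (ν : ℝ) ^ 2 * 4 ^ a * lam ≤ 1)
    (hs : 2 * K * (s * (2 * Fintype.card Q * 2 ^ a) ^ ν) < 2 ^ Δ)
    (hinj : ∀ (I : Finset (Fin ν)) (α : Fin ν → Q), I.card ≤ j0 →
      ∀ W : Finset (Fin ν → Q → Fin a → Bool), (∀ y ∈ W, ¬ H I fun i => y i (α i)) →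
        2 * K * W.card ≤ 2 ^ (ν * Fintype.card Q * a))
    (C : MonCircuit ι s) (A : (Fin ν → Q) → ι → Bool) (B : (Fin ν → Q → Fin a → Bool) → ι → Bool)
    (hleaf : ∀ i : ι, (∀ y, B y i = true) ∨ (∀ x, A x i = false) ∨
      ∃ (J : Finset (Fin ν)) (r : Fin ν → Q), J.card ≤ d ∧
      (∀ x, A x i = true → ∀ j ∈ J, x j = r j) ∧ (∀ y, B y i = false → ¬ H J fun j => y j (r j)))
    (Y0 : Finset (Fin ν → Q → Fin a → Bool)) (hY0 : ∀ y ∈ Y0, ¬ C.Accepts (B y))
    (hY0c : 2 ^ (ν * Fintype.card Q * a) ≤ K * Y0.card)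
    (S : Finset (Fin ν → Q)) (hS : ∀ x ∈ S, C.Accepts (A x)) : (S.card : ℝ) ≤ s * T + T0 := by
  classical
  refine zero_one_gen hFR hPART hH hlam0 hlam1 hT hT0 hΔ hj0 hpart hpart0 hlam C A B hleaf Y0 hY0
    ?_ S hS
  intro I α hI G' hG'
  have hG4 : 2 * K * G'.card < 2 ^ (ν * Fintype.card Q * a) := by
    by_contra hno
    rw [not_lt] at hno
    have h1 : 2 ^ (ν * Fintype.card Q * a) * 2 ^ Δ ≤
        2 ^ (ν * Fintype.card Q * a) * (2 * K * (s * (2 * Fintype.card Q * 2 ^ a) ^ ν)) := by
      calc 2 ^ (ν * Fintype.card Q * a) * 2 ^ Δ ≤ 2 * K * G'.card * 2 ^ Δ :=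
            Nat.mul_le_mul_right _ hno
        _ = 2 * K * (G'.card * 2 ^ Δ) := by ring
        _ ≤ 2 * K * (s * ((2 * Fintype.card Q * 2 ^ a) ^ ν * 2 ^ (ν * Fintype.card Q * a))) := by
            gcongr
        _ = _ := by ring
    have h2 := Nat.le_of_mul_le_mul_left h1 (by positivity)
    omega
  set Bad := univ.filter fun y : Fin ν → Q → Fin a → Bool => ¬ H I fun i => y i (α i) with hBad
  have hBadc : 2 * K * Bad.card ≤ 2 ^ (ν * Fintype.card Q * a) :=
    hinj I α hI Bad fun y hy => (mem_filter.1 hy).2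
  obtain ⟨y, hyY, hyG, hyB⟩ : ∃ y ∈ Y0, y ∉ G' ∧ y ∉ Bad := by
    by_contra hno
    push Not at hno
    have h1 : Y0 ⊆ G' ∪ Bad := by
      intro y hy
      rw [mem_union]
      by_cases h2 : y ∈ G'
      · exact Or.inl h2
      · exact Or.inr (hno y hy h2)
    have h2 := (card_le_card h1).trans (card_union_le _ _)
    have h3 : 2 * (K * Y0.card) ≤ 2 * K * G'.card + 2 * K * Bad.card := by
      calc 2 * (K * Y0.card) = 2 * K * Y0.card := by ring
        _ ≤ 2 * K * (G'.card + Bad.card) := Nat.mul_le_mul_left _ h2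
        _ = _ := by ring
    omega
  refine ⟨y, hyY, hyG, ?_⟩
  by_contra h
  exact hyB (mem_filter.2 ⟨mem_univ _, h⟩)

/-- the zero-one law for one copy inside the whole formula -/
theorem zero_one_copy_K (hFR : FR2_target) (hPART : PART_target) (hINJ : INJ_target)
    {n m σ a b j0 Δ R s K : ℕ} {lam T0 : ℝ} (ha : 1 ≤ a)
    (h : σ + (2 ^ a + 1) * b ≤ n)
    {e : (Fin σ → Bool) × Row (2 ^ a + 1) b → Fin m} (he : Function.Injective e)
    (en : (Fin σ → Bool) ≃ Fin R)
    (hlam0 : 0 < lam) (hlam1 : lam < 1) (hT0 : 0 ≤ T0) (hΔ : 0 < Δ) (hj0 : 2 * K * j0 ^ 2 ≤ 2 ^ a) (hj0d : j0 ≤ 2 ^ a)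
    (hpart0 : ∀ j : ℕ, j0 < j → j ≤ 2 ^ a + 1 →
      ((2 ^ b : ℕ) : ℝ) ^ (2 ^ a + 1 - j) ≤ T0 * lam ^ j)
    (hlam : 32 * Δ * ((2 ^ a + 1 : ℕ) : ℝ) ^ 2 * 4 ^ a * lam ≤ 1)
    (hs : 2 * K * (s * (2 * 2 ^ b * 2 ^ a) ^ (2 ^ a + 1)) < 2 ^ Δ)
    (C : MonCircuit (Fin m × (Fin n × Bool)) s) (t : Fin R)
    (y : Fin R → Fin (2 ^ a + 1) → (Fin b → Bool) → Fin a → Bool)
    (Y0 : Finset (Fin (2 ^ a + 1) → (Fin b → Bool) → Fin a → Bool))
    (hY0 : ∀ ω ∈ Y0, ¬ C.Accepts (form2 h e (stAll en y t.1 (stU ω))))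
    (hY0c : Fintype.card (Fin (2 ^ a + 1) → (Fin b → Bool) → Fin a → Bool) ≤ K * Y0.card)
    (S : Finset (Fin (2 ^ a + 1) → Fin b → Bool))
    (hS : ∀ X ∈ S, C.Accepts (form2 h e (stAll en y t.1 (stP X)))) :
    (S.card : ℝ) ≤ s * (1 / lam) ^ (2 ^ a + 1) + T0 := by
  classical
  have hQ : Fintype.card (Fin b → Bool) = 2 ^ b := by
    rw [Fintype.card_fun, Fintype.card_fin, Fintype.card_bool]
  have hΩ : Fintype.card (Fin (2 ^ a + 1) → (Fin b → Bool) → Fin a → Bool) =
      2 ^ ((2 ^ a + 1) * Fintype.card (Fin b → Bool) * a) := by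
    rw [Fintype.card_fun, Fintype.card_fun, Fintype.card_fun, Fintype.card_bool, Fintype.card_fin,
      Fintype.card_fin, ← pow_mul, ← pow_mul]
    congr 1
    ring
  have ha2 : 2 ≤ 2 ^ a := by
    calc 2 = 2 ^ 1 := by norm_num
      _ ≤ 2 ^ a := Nat.pow_le_pow_right (by norm_num) ha
  refine zero_one_K hFR hPART (K := K) (j0 := j0) (Q := Fin b → Bool) (a := a) (d := 2 ^ a) dup_php hlam0 hlam1
    (by positivity) hT0 hΔ ?_ ?_ ?_ hlam ?_ ?_ C (fun X => form2 h e (stAll en y t.1 (stP X)))
    (fun ω => form2 h e (stAll en y t.1 (stU ω))) ?_ Y0 hY0 ?_ S hS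
  · exact hj0d
  · intro j hj hj'
    have : j = 2 ^ a + 1 := by omega
    rw [this, Nat.sub_self, pow_zero, ← mul_pow, one_div, inv_mul_cancel₀ hlam0.ne', one_pow]
  · intro j hj hj'
    rw [hQ]
    exact hpart0 j hj hj'
  · rw [hQ]
    exact hs
  · intro I α hI W hW
    have h1 := hINJ (ν := 2 ^ a + 1) (a := a) (j := j0) (Q := Fin b → Bool) I α hI
    have h2 : W.card ≤ (univ.filter fun y : Fin (2 ^ a + 1) → (Fin b → Bool) → Fin a → Bool =>
        ¬ Set.InjOn (fun i => y i (α i)) I).card :=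
      card_le_card fun y hy => mem_filter.2 ⟨mem_univ _, hW y hy⟩
    rw [hΩ] at h1
    have h3 : 2 ^ a * (2 * K * W.card) ≤
        2 ^ a * 2 ^ ((2 ^ a + 1) * Fintype.card (Fin b → Bool) * a) := by
      calc 2 ^ a * (2 * K * W.card) = 2 * K * (2 ^ a * W.card) := by ring
        _ ≤ 2 * K * (j0 ^ 2 * 2 ^ ((2 ^ a + 1) * Fintype.card (Fin b → Bool) * a)) :=
            Nat.mul_le_mul_left _ ((Nat.mul_le_mul_left _ h2).trans h1)
        _ = 2 * K * j0 ^ 2 * 2 ^ ((2 ^ a + 1) * Fintype.card (Fin b → Bool) * a) := by ring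
        _ ≤ _ := Nat.mul_le_mul_right _ hj0
    exact Nat.le_of_mul_le_mul_left h3 (by positivity)
  · rintro ⟨j, l⟩
    by_cases hj : ∃ τ r, e (τ, r) = j
    · obtain ⟨τ, r, hr⟩ := hj
      have huniq : ∀ τ' r', e (τ', r') = j → τ' = τ ∧ r' = r := by
        intro τ' r' h'
        have := he (h'.trans hr.symm)
        rwa [Prod.mk.injEq] at this
      have hval : ∀ st : (Fin σ → Bool) → Row (2 ^ a + 1) b → Fin 3,
          form2 h e st (j, l) = true ↔
            (l ∈ selCl h τ ∨ (st τ r = 1 ∧ l ∈ rowCl2 h r) ∨ st τ r = 2) := by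
        intro st
        rw [form2_true]
        constructor
        · exact fun hq => hq τ r hr
        · intro hq τ' r' h'
          obtain ⟨rfl, rfl⟩ := huniq τ' r' h'
          exact hq
      by_cases hsel : l ∈ selCl h τ
      · left
        exact fun ω => (hval _).2 (Or.inl hsel)
      · by_cases htt : (en τ).1 = t.1
        · have hst : ∀ Z : Row (2 ^ a + 1) b → Fin 3, stAll en y t.1 Z τ r = Z r := by
            intro Z
            unfold stAll
            rw [if_neg (by omega), if_pos htt]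
          by_cases hrow : l ∈ rowCl2 h r
          · left
            intro ω
            rw [hval, hst]
            rcases stU_cases ω r with ⟨_, h2⟩ | ⟨_, h2⟩
            · exact Or.inr (Or.inl ⟨h2, hrow⟩)
            · exact Or.inr (Or.inr h2)
          · by_cases hij : r.1.1 = r.1.2
            · left
              intro ω
              rw [hval, hst]
              rcases stU_cases ω r with ⟨h2, _⟩ | ⟨_, h2⟩
              · exact absurd hij h2.1
              · exact Or.inr (Or.inr h2)
            · right; right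
              refine ⟨{r.1.1, r.1.2}, fun v => if v = r.1.1 then r.2.1 else r.2.2, ?_, ?_, ?_⟩
              · exact (card_le_two).trans ha2
              · intro X hX j' hj'
                rw [hval, hst] at hX
                rcases stP_cases X r with ⟨h2, _⟩ | ⟨_, h3⟩
                · rw [mem_insert, mem_singleton] at hj'
                  rcases hj' with rfl | rfl
                  · simp only [if_true]
                    exact h2.1
                  · simp only
                    rw [if_neg (Ne.symm hij)]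
                    exact h2.2
                · rw [h3] at hX
                  rcases hX with h4 | ⟨_, h4⟩ | h4
                  · exact absurd h4 hsel
                  · exact absurd h4 hrow
                  · exact absurd h4 (by decide)
              · intro ω hω
                have hne : ¬ (form2 h e (stAll en y t.1 (stU ω)) (j, l) = true) := by
                  rw [hω]
                  simp
                rw [hval, hst] at hne
                rcases stU_cases ω r with ⟨h2, _⟩ | ⟨_, h2⟩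
                · intro hinj
                  apply hij
                  refine hinj (by simp) (by simp) ?_
                  simp only [if_true]
                  rw [if_neg (Ne.symm hij)]
                  exact h2.2
                · exact absurd (Or.inr (Or.inr h2)) hne
        · have hst : ∀ Z : Row (2 ^ a + 1) b → Fin 3, stAll en y t.1 Z τ r =
              stAll en y t.1 (fun _ => 0) τ r := by
            intro Z
            unfold stAll
            rw [if_neg htt, if_neg htt]
          by_cases hq : (l ∈ selCl h τ ∨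
              (stAll en y t.1 (fun _ => 0) τ r = 1 ∧ l ∈ rowCl2 h r) ∨
              stAll en y t.1 (fun _ => 0) τ r = 2)
          · left
            intro ω
            rw [hval, hst]
            exact hq
          · right; left
            intro X
            rw [Bool.eq_false_iff]
            intro hX
            rw [hval, hst] at hX
            exact hq hX
    · left
      intro ω
      rw [form2_true]
      exact fun τ r hr => absurd ⟨τ, r, hr⟩ hj
  · rw [← hΩ]
    exact hY0c

end Pool.Agent.H78.FG
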