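import Pool.Agent.H78.FG.Php
import Pool.Agent.H78.FG.ZeroOne

/-!
# The zero-one law for one copy, with any number of holes
-/

open Finset Pool.Agent.H1.Mono

namespace Pool.Agent.H78.FG

/-- `h` holes and more than `h` pigeons -/
lemma php {ν a h b : ℕ} {π : (Fin a → Bool) → Fin a → Bool} (hπ : Holes h π) (hν : h < ν)
    (y : Fin ν → (Fin b → Bool) → Fin a → Bool) (X : Fin ν → Fin b → Bool) :
    ∃ j j' : Fin ν, j ≠ j' ∧ π (y j (X j)) = π (y j' (X j')) := by
  classical
  obtain ⟨j, -, j', -, hne, heq⟩ := exists_ne_map_eq_of_card_lt_of_maps_to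
    (s := (univ : Finset (Fin ν))) (t := univ.image π) (f := fun j => π (y j (X j)))
    (by rw [hπ.card, card_univ, Fintype.card_fin]; exact hν)
    (fun j _ => mem_coe.2 (mem_image_of_mem _ (mem_univ _)))
  exact ⟨j, j', hne, heq⟩

/-- the pigeonhole formulas before `t` and nothing afterwards: unsatisfiable -/
lemma unsat_pre {n m σ ν b a R : ℕ} (hν : 0 < ν) (h : σ + ν * b ≤ n)
    {e : (Fin σ → Bool) × Row ν b → Fin m} (en : (Fin σ → Bool) ≃ Fin R)
    (y : Fin R → Fin ν → (Fin b → Bool) → Fin a → Bool) (t : ℕ)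
    (hy : ∀ (i : Fin R) (X : Fin ν → Fin b → Bool), ∃ j j' : Fin ν, j ≠ j' ∧
      y i j (X j) = y i j' (X j')) :
    ¬ Satisfiable (form2 h e (stAll en y t fun _ => 0)) := by
  refine form2_unsat h fun τ X => ?_
  by_cases h1 : (en τ).1 < t
  · -- pigeonhole
    obtain ⟨i, j, hij, hv⟩ := hy (en τ) X
    refine ⟨((i, j), (X i, X j)), ?_, ?_⟩
    · unfold stAll
      rw [if_pos h1]
      rcases stU_cases (y (en τ)) ((i, j), (X i, X j)) with ⟨_, h2⟩ | ⟨h2, _⟩
      · rw [h2]
        decide
      · exact absurd ⟨hij, hv⟩ h2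
    · exact fun _ => ⟨rfl, rfl⟩
  · refine ⟨((⟨0, hν⟩, ⟨0, hν⟩), (X ⟨0, hν⟩, X ⟨0, hν⟩)), ?_, ?_⟩
    · unfold stAll
      rw [if_neg h1]
      split_ifs
      · exact (by decide : (0 : Fin 3) ≠ 2)
      · decide
    · unfold stAll
      rw [if_neg h1]
      split_ifs
      · exact fun h2 => absurd (show (0 : Fin 3) = 1 from h2) (by decide)
      · exact fun h2 => absurd h2 (by decide)

/-- the planted formula is satisfied -/
lemma sat_plant {n m σ ν b a R : ℕ} (h : σ + ν * b ≤ n) (hn : 0 < n)
    {e : (Fin σ → Bool) × Row ν b → Fin m} (he : Function.Injective e)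
    (en : (Fin σ → Bool) ≃ Fin R)
    (y : Fin R → Fin ν → (Fin b → Bool) → Fin a → Bool) (t : Fin R)
    (X : Fin ν → Fin b → Bool) :
    Satisfiable (form2 h e (stAll en y t.1 (stP X))) := by
  -- an assignment with selector `en⁻¹ t` and blocks `X`
  obtain ⟨x, hx1, hx2⟩ : ∃ x : Fin n → Bool, sel h x = en.symm t ∧ blk2 h x = X := by
    have hinj : Function.Injective (Sum.elim (sidx h) fun p : Fin ν × Fin b =>
        bidx h p.1 p.2) := by
      rintro (c | ⟨i, u⟩) (c' | ⟨i', u'⟩) hcc
      · simp only [Sum.elim_inl, sidx, Fin.mk.injEq] at hcc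
        rw [Fin.ext hcc]
      · simp only [Sum.elim_inl, Sum.elim_inr, sidx, bidx, Fin.mk.injEq] at hcc
        have := c.2
        omega
      · simp only [Sum.elim_inl, Sum.elim_inr, sidx, bidx, Fin.mk.injEq] at hcc
        have := c'.2
        omega
      · simp only [Sum.elim_inr, bidx, Fin.mk.injEq, Nat.add_left_cancel_iff] at hcc
        have hb : 0 < b := lt_of_le_of_lt (Nat.zero_le _) u.2
        have h1 : (i.1 * b + u.1) / b = i.1 := by
          rw [mul_comm, Nat.mul_add_div hb, Nat.div_eq_of_lt u.2, add_zero]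
        have h2 : (i'.1 * b + u'.1) / b = i'.1 := by
          rw [mul_comm, Nat.mul_add_div hb, Nat.div_eq_of_lt u'.2, add_zero]
        have h3 : i = i' := Fin.ext (by rw [← h1, ← h2, hcc])
        have h4 : u = u' := by
          apply Fin.ext
          rw [h3] at hcc
          omega
        rw [h3, h4]
    refine ⟨Function.extend (Sum.elim (sidx h) fun p : Fin ν × Fin b => bidx h p.1 p.2)
      (Sum.elim (en.symm t) fun p => X p.1 p.2) fun _ => false, ?_, ?_⟩
    · funext c
      exact hinj.extend_apply _ _ (Sum.inl c)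
    · funext i u
      exact hinj.extend_apply _ _ (Sum.inr (i, u))
  refine ⟨x, form2_sat h hn he fun r => ?_⟩
  rw [hx1, hx2]
  have h1 : stAll en y t.1 (stP X) (en.symm t) r = stP X r := by
    unfold stAll
    rw [Equiv.apply_symm_apply, if_neg (lt_irrefl _), if_pos rfl]
  rw [h1]
  rcases stP_cases X r with ⟨_, h2⟩ | ⟨h2, h3⟩
  · exact Or.inl h2
  · exact Or.inr ⟨h3, h2⟩

/-- the zero-one law for one copy inside the whole formula -/
theorem zero_one_hole (hFR : FR2_target) (hPART : PART_target)
    {n m σ ν h a b j0 Δ R s K : ℕ} {lam T0 : ℝ} {π : (Fin a → Bool) → Fin a → Bool}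
    (hπ : Holes h π) (hν : ν = h + 1) (hh : 2 ≤ h) (hb : σ + ν * b ≤ n)
    {e : (Fin σ → Bool) × Row ν b → Fin m} (he : Function.Injective e)
    (en : (Fin σ → Bool) ≃ Fin R)
    (hlam0 : 0 < lam) (hlam1 : lam < 1) (hT0 : 0 ≤ T0) (hΔ : 0 < Δ)
    (hj0 : 4 * K * j0 ^ 2 ≤ 2 ^ a) (hj0d : j0 ≤ h)
    (hpart0 : ∀ j : ℕ, j0 < j → j ≤ ν → ((2 ^ b : ℕ) : ℝ) ^ (ν - j) ≤ T0 * lam ^ j)
    (hlam : 32 * Δ * (ν : ℝ) ^ 2 * 4 ^ a * lam ≤ 1)
    (hs : 2 * K * (s * (2 * 2 ^ b * 2 ^ a) ^ ν) < 2 ^ Δ)
    (C : MonCircuit (Fin m × (Fin n × Bool)) s) (t : Fin R)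
    (y : Fin R → Fin ν → (Fin b → Bool) → Fin a → Bool)
    (Y0 : Finset (Fin ν → (Fin b → Bool) → Fin a → Bool))
    (hY0 : ∀ ω ∈ Y0, ¬ C.Accepts (form2 hb e (stAll en y t.1 (stU fun i q => π (ω i q)))))
    (hY0c : Fintype.card (Fin ν → (Fin b → Bool) → Fin a → Bool) ≤ K * Y0.card)
    (S : Finset (Fin ν → Fin b → Bool))
    (hS : ∀ X ∈ S, C.Accepts (form2 hb e (stAll en y t.1 (stP X)))) :
    (S.card : ℝ) ≤ s * (1 / lam) ^ ν + T0 := by
  classical
  have hQ : Fintype.card (Fin b → Bool) = 2 ^ b := by
    rw [Fintype.card_fun, Fintype.card_fin, Fintype.card_bool]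
  have hΩ : Fintype.card (Fin ν → (Fin b → Bool) → Fin a → Bool) =
      2 ^ (ν * Fintype.card (Fin b → Bool) * a) := by
    rw [Fintype.card_fun, Fintype.card_fun, Fintype.card_fun, Fintype.card_bool, Fintype.card_fin,
      Fintype.card_fin, ← pow_mul, ← pow_mul]
    congr 1
    ring
  refine zero_one_K hFR hPART (K := K) (j0 := j0) (Q := Fin b → Bool) (a := a) (d := h)
    (dup_holes hπ) hlam0 hlam1 (by positivity) hT0 hΔ hj0d ?_ ?_ hlam ?_ ?_ C
    (fun X => form2 hb e (stAll en y t.1 (stP X)))
    (fun ω => form2 hb e (stAll en y t.1 (stU fun i q => π (ω i q)))) ?_ Y0 hY0 ?_ S hS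
  · intro j hj hj'
    have : j = ν := by omega
    rw [this, Nat.sub_self, pow_zero, ← mul_pow, one_div, inv_mul_cancel₀ hlam0.ne', one_pow]
  · intro j hj hj'
    rw [hQ]
    exact hpart0 j hj hj'
  · rw [hQ]
    exact hs
  · intro I α hI W hW
    have h1 := inj_holes (ν := ν) (a := a) (j := j0) (Q := Fin b → Bool) hπ I α hI
    have h2 : W.card ≤ (univ.filter fun y : Fin ν → (Fin b → Bool) → Fin a → Bool =>
        ¬ Set.InjOn (fun i => π (y i (α i))) I).card :=
      card_le_card fun y hy => mem_filter.2 ⟨mem_univ _, hW y hy⟩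
    rw [hΩ] at h1
    have h3 : 2 ^ a * (2 * K * W.card) ≤
        2 ^ a * 2 ^ (ν * Fintype.card (Fin b → Bool) * a) := by
      calc 2 ^ a * (2 * K * W.card) = 2 * K * (2 ^ a * W.card) := by ring
        _ ≤ 2 * K * (2 * j0 ^ 2 * 2 ^ (ν * Fintype.card (Fin b → Bool) * a)) :=
            Nat.mul_le_mul_left _ ((Nat.mul_le_mul_left _ h2).trans h1)
        _ = 4 * K * j0 ^ 2 * 2 ^ (ν * Fintype.card (Fin b → Bool) * a) := by ring
        _ ≤ _ := Nat.mul_le_mul_right _ hj0
    exact Nat.le_of_mul_le_mul_left h3 (by positivity)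
  · rintro ⟨j, l⟩
    by_cases hj : ∃ τ r, e (τ, r) = j
    · obtain ⟨τ, r, hr⟩ := hj
      have huniq : ∀ τ' r', e (τ', r') = j → τ' = τ ∧ r' = r := by
        intro τ' r' h'
        have := he (h'.trans hr.symm)
        rwa [Prod.mk.injEq] at this
      have hval : ∀ st : (Fin σ → Bool) → Row ν b → Fin 3,
          form2 hb e st (j, l) = true ↔
            (l ∈ selCl hb τ ∨ (st τ r = 1 ∧ l ∈ rowCl2 hb r) ∨ st τ r = 2) := by
        intro st
        rw [form2_true]
        constructor
        · exact fun hq => hq τ r hr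
        · intro hq τ' r' h'
          obtain ⟨rfl, rfl⟩ := huniq τ' r' h'
          exact hq
      by_cases hsel : l ∈ selCl hb τ
      · left
        exact fun ω => (hval _).2 (Or.inl hsel)
      · by_cases htt : (en τ).1 = t.1
        · have hst : ∀ Z : Row ν b → Fin 3, stAll en y t.1 Z τ r = Z r := by
            intro Z
            unfold stAll
            rw [if_neg (by omega), if_pos htt]
          by_cases hrow : l ∈ rowCl2 hb r
          · left
            intro ω
            rw [hval, hst]
            rcases stU_cases (fun i q => π (ω i q)) r with ⟨_, h2⟩ | ⟨_, h2⟩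
            · exact Or.inr (Or.inl ⟨h2, hrow⟩)
            · exact Or.inr (Or.inr h2)
          · by_cases hij : r.1.1 = r.1.2
            · left
              intro ω
              rw [hval, hst]
              rcases stU_cases (fun i q => π (ω i q)) r with ⟨h2, _⟩ | ⟨_, h2⟩
              · exact absurd hij h2.1
              · exact Or.inr (Or.inr h2)
            · right; right
              refine ⟨{r.1.1, r.1.2}, fun v => if v = r.1.1 then r.2.1 else r.2.2, ?_, ?_, ?_⟩
              · exact (card_le_two).trans hh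
              · intro X hX j' hj'
                rw [hval, hst] at hX
                rcases stP_cases X r with ⟨h2, _⟩ | ⟨_, h3⟩
                · rw [mem_insert, mem_singleton] at hj'
                  rcases hj' with rfl | rfl
                  · simp only [if_true]
                    exact h2.1
                  · simp only
                    rw [if_neg (Ne.symm hij)]
                    exact h2.2
                · rw [h3] at hX
                  rcases hX with h4 | ⟨_, h4⟩ | h4
                  · exact absurd h4 hsel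
                  · exact absurd h4 hrow
                  · exact absurd h4 (by decide)
              · intro ω hω
                have hne : ¬ (form2 hb e (stAll en y t.1 (stU fun i q => π (ω i q))) (j, l) = true) := by
                  rw [hω]
                  simp
                rw [hval, hst] at hne
                rcases stU_cases (fun i q => π (ω i q)) r with ⟨h2, _⟩ | ⟨_, h2⟩
                · intro hinj
                  apply hij
                  refine hinj (by simp) (by simp) ?_
                  simp only [if_true]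
                  rw [if_neg (Ne.symm hij)]
                  exact h2.2
                · exact absurd (Or.inr (Or.inr h2)) hne
        · have hst : ∀ Z : Row ν b → Fin 3, stAll en y t.1 Z τ r =
              stAll en y t.1 (fun _ => 0) τ r := by
            intro Z
            unfold stAll
            rw [if_neg htt, if_neg htt]
          by_cases hq : (l ∈ selCl hb τ ∨
              (stAll en y t.1 (fun _ => 0) τ r = 1 ∧ l ∈ rowCl2 hb r) ∨
              stAll en y t.1 (fun _ => 0) τ r = 2)
          · left
            intro ω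
            rw [hval, hst]
            exact hq
          · right; left
            intro X
            rw [Bool.eq_false_iff]
            intro hX
            rw [hval, hst] at hX
            exact hq hX
    · left
      intro ω
      rw [form2_true]
      exact fun τ r hr => absurd ⟨τ, r, hr⟩ hj
  · rw [← hΩ]
    exact hY0c

end Pool.Agent.H78.FG
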