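import Pool.Agent.H78.FG.Main

/-!
# Deciding circuits, and functions of monotone circuits
-/

open Finset Pool.Agent.H1.Mono

namespace Pool.Agent.H78.FG

/-- circuits with free gates which decide satisfiability -/
theorem decide_level (n m : ℕ) (hn2 : 2 ≤ n) (M : Finset (Fin m)) (hM : M.Nonempty) (D : ℝ)
    (hD : 0 < D) (s : ℕ) (C : FCircuit (Fin m × (Fin n × Bool)) s) (lev : Fin s → ℕ)
    (hlev : C.Levels lev)
    (hw : (C.weight M lev : ℝ) ≤
      2 ^ (min (Real.logb 2 (2 * M.card * n)) (Real.sqrt n) - D))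
    (hC : ∀ F : Formula n m, C.Accepts F ↔ Satisfiable F) :
    (2 : ℝ) ^ ((1 - 15 * Real.logb 2 n / D) * n) ≤ s := by
  classical
  obtain ⟨R, κ, X, hκ, hX, hκne, hXne, A, P, hR, hA1, hA2, hP1, -, -, -, -, hmain⟩ :=
    main n m hn2 M hM D hD
  by_contra hs
  rw [not_le] at hs
  have h1 := hmain s C hs
  have h2 : ∀ k x, (Nat.card {t : ℕ // t < R ∧
      ¬ (C.Accepts (A k t) ↔ C.Accepts (P k t x))} : ℝ) = R := by
    intro k x
    have h3 : Nat.card {t : ℕ // t < R ∧ ¬ (C.Accepts (A k t) ↔ C.Accepts (P k t x))} = R := by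
      rw [card_changes, filter_true_of_mem, card_range]
      intro t ht h4
      rw [hC, hC] at h4
      exact hA2 k t (h4.2 (hP1 k t (mem_range.1 ht) x))
    rw [h3]
  have h3 : ∀ k, ((C.changes (A k) R : ℝ) + 1) ≤ C.weight M lev := by
    intro k
    have h4 := changes_const C (hA1 k) lev hlev fun i h5 => hA2 k i ((hC _).1 h5)
    exact_mod_cast h4
  have h4 : ∑ k : κ, ∑ x : X, (Nat.card {t : ℕ // t < R ∧
      ¬ (C.Accepts (A k t) ↔ C.Accepts (P k t x))} : ℝ) =
      Fintype.card κ * Fintype.card X * R := by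
    rw [sum_congr rfl fun k _ => sum_congr rfl fun x _ => h2 k x, sum_const, sum_const, card_univ,
      card_univ, nsmul_eq_mul, nsmul_eq_mul]
    ring
  have h5 : ∑ k : κ, ((C.changes (A k) R : ℝ) + 1) ≤ Fintype.card κ * C.weight M lev := by
    refine (sum_le_sum fun k _ => h3 k).trans (le_of_eq ?_)
    rw [sum_const, card_univ, nsmul_eq_mul]
  have hκ0 : (0 : ℝ) < Fintype.card κ := by exact_mod_cast Fintype.card_pos
  have hX0 : (0 : ℝ) < Fintype.card X := by exact_mod_cast Fintype.card_pos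
  have h6 : (Fintype.card κ : ℝ) * Fintype.card X * R ≤
      Fintype.card κ * Fintype.card X * (2 * C.weight M lev) := by
    rw [← h4]
    refine h1.trans ((mul_le_mul_of_nonneg_left h5 (by positivity)).trans (le_of_eq ?_))
    ring
  have h7 : (R : ℝ) ≤ 2 * C.weight M lev := le_of_mul_le_mul_left h6 (by positivity)
  linarith

/-- a function of gates of a monotone circuit and of inputs -/
noncomputable def ofMon {ι : Type} {s : ℕ} (C : MonCircuit ι s) (U : Finset (Fin s))
    (I : Finset ι) (f : Set ι → Set (Fin s) → Prop) : FCircuit ι (s + 1) where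
  free t := decide (t = Fin.last s)
  isAnd t := if h : t.1 < s then C.isAnd ⟨t.1, h⟩ else false
  ins t := if h : t.1 < s then C.ins ⟨t.1, h⟩ else I
  gates t := if h : t.1 < s then (C.gates ⟨t.1, h⟩).map Fin.castSuccEmb else
    U.map Fin.castSuccEmb
  fn _ S V := f S {u | u.castSucc ∈ V}
  lt t u hu := by
    by_cases h : t.1 < s
    · rw [dif_pos h, mem_map] at hu
      obtain ⟨v, hv, rfl⟩ := hu
      have := C.lt _ v hv
      rw [Fin.lt_def] at this ⊢
      exact this
    · rw [dif_neg h, mem_map] at hu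
      obtain ⟨v, hv, rfl⟩ := hu
      rw [Fin.lt_def]
      have h2 : t.1 = s := by omega
      rw [h2]
      exact v.2
  out := Fin.last s

section

variable {ι : Type} {s : ℕ} (C : MonCircuit ι s) (U : Finset (Fin s)) (I : Finset ι)
  (f : Set ι → Set (Fin s) → Prop)

lemma ofMon_free (t : Fin (s + 1)) : (ofMon C U I f).free t = true ↔ t = Fin.last s := by
  simp [ofMon]

lemma ofMon_free_castSucc (t : Fin s) : ¬ (ofMon C U I f).free t.castSucc = true := by
  rw [ofMon_free]
  exact t.castSucc_ne_last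

lemma ofMon_ins (t : Fin s) : (ofMon C U I f).ins t.castSucc = C.ins t := by
  simp [ofMon]

lemma ofMon_gates (t : Fin s) :
    (ofMon C U I f).gates t.castSucc = (C.gates t).map Fin.castSuccEmb := by
  simp [ofMon]

lemma ofMon_isAnd (t : Fin s) : (ofMon C U I f).isAnd t.castSucc = C.isAnd t := by
  simp [ofMon]

lemma ofMon_ins_last : (ofMon C U I f).ins (Fin.last s) = I := by
  simp [ofMon]

lemma ofMon_gates_last : (ofMon C U I f).gates (Fin.last s) = U.map Fin.castSuccEmb := by
  simp [ofMon]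

lemma ofMon_val (A : ι → Bool) (t : Fin s) : (ofMon C U I f).Val A t.castSucc ↔ C.Val A t := by
  induction t using WellFoundedLT.induction with
  | ind t ih =>
    have hf := ofMon_free_castSucc C U I f t
    by_cases ha : C.isAnd t = true
    · rw [FCircuit.val_and _ _ hf (by rw [ofMon_isAnd]; exact ha), C.val_and _ ha, ofMon_ins,
        ofMon_gates]
      refine and_congr_right fun _ => ?_
      constructor
      · intro h u hu
        rw [← ih u (C.lt t u hu)]
        exact h _ (mem_map_of_mem Fin.castSuccEmb hu)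
      · intro h u hu
        obtain ⟨v, hv, rfl⟩ := mem_map.1 hu
        exact (ih v (C.lt t v hv)).2 (h v hv)
    · rw [FCircuit.val_or _ _ hf (by rw [ofMon_isAnd]; exact ha), C.val_or _ ha, ofMon_ins,
        ofMon_gates]
      refine or_congr_right ?_
      constructor
      · rintro ⟨u, hu, h⟩
        obtain ⟨v, hv, rfl⟩ := mem_map.1 hu
        exact ⟨v, hv, (ih v (C.lt t v hv)).1 h⟩
      · rintro ⟨v, hv, h⟩
        exact ⟨_, mem_map_of_mem Fin.castSuccEmb hv, (ih v (C.lt t v hv)).2 h⟩

lemma ofMon_accepts (A : ι → Bool) : (ofMon C U I f).Accepts A ↔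
    f {i | i ∈ I ∧ A i = true} {u | u ∈ U ∧ C.Val A u} := by
  have h1 : (ofMon C U I f).Accepts A ↔ (ofMon C U I f).Val A (Fin.last s) := Iff.rfl
  rw [h1, FCircuit.val_free _ _ ((ofMon_free C U I f _).2 rfl), ofMon_ins_last, ofMon_gates_last]
  change f _ {u : Fin s | u.castSucc ∈ {u | u ∈ U.map Fin.castSuccEmb ∧ _}} ↔ _
  have h2 : {u : Fin s | u.castSucc ∈ {u | u ∈ U.map Fin.castSuccEmb ∧
      (ofMon C U I f).Val A u}} = {u | u ∈ U ∧ C.Val A u} := by
    ext u
    simp only [Set.mem_ofPred_eq]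
    rw [ofMon_val]
    refine and_congr_left fun _ => ?_
    rw [← Fin.coe_castSuccEmb, mem_map']
  rw [h2]

lemma ofMon_read (i : ι) : (ofMon C U I f).Read i ↔ i ∈ I := by
  constructor
  · rintro ⟨t, ht, hi⟩
    rw [ofMon_free] at ht
    rw [ht, ofMon_ins_last] at hi
    exact hi
  · intro hi
    refine ⟨Fin.last s, (ofMon_free C U I f _).2 rfl, ?_⟩
    rw [ofMon_ins_last]
    exact hi

lemma ofMon_arg (u : Fin (s + 1)) : (ofMon C U I f).Arg u ↔ u ∈ U.map Fin.castSuccEmb := by
  constructor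
  · rintro ⟨t, ht, hi⟩
    rw [ofMon_free] at ht
    rw [ht, ofMon_gates_last] at hi
    exact hi
  · intro hi
    refine ⟨Fin.last s, (ofMon_free C U I f _).2 rfl, ?_⟩
    rw [ofMon_gates_last]
    exact hi

/-- the level function -/
def lv (s : ℕ) (t : Fin (s + 1)) : ℕ := if t = Fin.last s then 1 else 0

lemma ofMon_levels : (ofMon C U I f).Levels (lv s) := by
  intro t u hu
  have hut : u < t := (ofMon C U I f).lt t u hu
  have hu1 : lv s u = 0 := by
    unfold lv
    rw [if_neg]
    exact (lt_of_lt_of_le hut (Fin.le_last t)).ne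
  rw [hu1]
  refine ⟨Nat.zero_le _, fun ht => ?_⟩
  rw [ofMon_free] at ht
  unfold lv
  rw [if_pos ht]
  exact Nat.one_pos

end

lemma ofMon_weight {n m s : ℕ} (C : MonCircuit (Fin m × (Fin n × Bool)) s) (U : Finset (Fin s))
    (I : Finset (Fin m × (Fin n × Bool))) (f : Set (Fin m × (Fin n × Bool)) → Set (Fin s) → Prop)
    (M : Finset (Fin m)) (hI : ∀ l ∈ I, l.1 ∉ M) :
    (ofMon C U I f).weight M (lv s) ≤ U.card + 1 := by
  classical
  have h0 : Nat.card {j : Fin m // j ∈ M ∧ ∃ l, (ofMon C U I f).Read (j, l)} = 0 := by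
    rw [Nat.card_eq_zero]
    left
    refine ⟨fun ⟨j, hj, l, hl⟩ => ?_⟩
    rw [ofMon_read] at hl
    exact hI _ hl hj
  have h1 : ∀ i, Nat.card {u : Fin (s + 1) // (ofMon C U I f).Arg u ∧ lv s u = i} =
      if i = 0 then U.card else 0 := by
    intro i
    by_cases hi : i = 0
    · rw [if_pos hi]
      have h2 : Nat.card {u : Fin (s + 1) // (ofMon C U I f).Arg u ∧ lv s u = i} =
          (U.map Fin.castSuccEmb).card := by
        refine Nat.subtype_card _ fun u => ?_
        rw [ofMon_arg]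
        refine ⟨fun h => ⟨h, ?_⟩, fun h => h.1⟩
        obtain ⟨v, -, rfl⟩ := mem_map.1 h
        rw [hi]
        unfold lv
        rw [if_neg]
        exact Fin.castSucc_ne_last v
      rw [h2, card_map]
    · rw [if_neg hi, Nat.card_eq_zero]
      left
      refine ⟨fun ⟨u, hu, hl⟩ => ?_⟩
      rw [ofMon_arg] at hu
      obtain ⟨v, -, rfl⟩ := mem_map.1 hu
      apply hi
      rw [← hl]
      unfold lv
      rw [if_neg]
      exact Fin.castSucc_ne_last v
  unfold FCircuit.weight
  rw [h0, zero_add, one_mul, prod_congr rfl fun i _ => by rw [h1 i]]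
  calc ∏ i ∈ univ.image (lv s), ((if i = 0 then U.card else 0) + 1)
      ≤ ∏ i ∈ insert 0 (univ.image (lv s)), ((if i = 0 then U.card else 0) + 1) :=
        prod_le_prod_of_subset_of_one_le' (subset_insert _ _) fun i _ _ => by omega
    _ = ∏ i ∈ ({0} : Finset ℕ), ((if i = 0 then U.card else 0) + 1) := by
        refine (prod_subset (singleton_subset_iff.2 (mem_insert_self _ _)) fun i _ hi => ?_).symm
        rw [if_neg (by rwa [mem_singleton] at hi), zero_add]
    _ = U.card + 1 := by rw [prod_singleton, if_pos rfl]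
    _ ≤ U.card + 1 := le_rfl

/-- functions of monotone circuits and of the entries of the clauses outside `M` -/
theorem decide_mon (n m : ℕ) (hn2 : 2 ≤ n) (M : Finset (Fin m)) (hM : M.Nonempty) (D : ℝ)
    (hD : 0 < D) (s : ℕ) (C : MonCircuit (Fin m × (Fin n × Bool)) s) (U : Finset (Fin s))
    (f : Formula n m → Set (Fin s) → Prop)
    (hf : ∀ F F' V, (∀ j ∉ M, ∀ l, F (j, l) = F' (j, l)) → (f F V ↔ f F' V))
    (hU : (U.card : ℝ) + 1 ≤ 2 ^ (min (Real.logb 2 (2 * M.card * n)) (Real.sqrt n) - D))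
    (hC : ∀ F : Formula n m, f F {u | u ∈ U ∧ C.Val F u} ↔ Satisfiable F) :
    (2 : ℝ) ^ ((1 - 15 * Real.logb 2 n / D) * n) ≤ s + 1 := by
  classical
  set I : Finset (Fin m × (Fin n × Bool)) := univ.filter fun l => l.1 ∉ M with hI
  have hw := ofMon_weight C U I (fun S V => f (fun l => decide (l ∈ S)) V) M fun l hl =>
    (mem_filter.1 hl).2
  have h1 := decide_level n m hn2 M hM D hD (s + 1)
    (ofMon C U I fun S V => f (fun l => decide (l ∈ S)) V) (lv s) (ofMon_levels _ _ _ _) ?_ ?_
  · push_cast at h1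
    exact h1
  · refine le_trans ?_ hU
    exact_mod_cast hw
  · intro F
    rw [ofMon_accepts, ← hC F]
    refine hf _ _ _ fun j hj l => ?_
    rw [Bool.eq_iff_iff]
    constructor
    · exact fun h => (@of_decide_eq_true _ (Classical.propDecidable _) h).2
    · exact fun h => @decide_eq_true _ (Classical.propDecidable _)
        ⟨mem_filter.2 ⟨mem_univ _, hj⟩, h⟩

end Pool.Agent.H78.FG
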