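import Pool.Agent.H1.Mono.Circ

/-!
# Circuits with free gates
-/

open Finset Pool.Agent.H1.Mono

namespace Pool.Agent.H78.FG

/-- A circuit with `s` gates and inputs indexed by `ι`. Gate `t` has as arguments the inputs in
`ins t` and the earlier gates in `gates t` (arbitrary fan-in). If `free t` is false it computes the
conjunction or the disjunction of its arguments; if `free t` is true it is a free gate, which
computes an arbitrary function `fn t` of the set of its true arguments. -/
structure FCircuit (ι : Type) (s : ℕ) where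
  free : Fin s → Bool
  isAnd : Fin s → Bool
  ins : Fin s → Finset ι
  gates : Fin s → Finset (Fin s)
  fn : Fin s → Set ι → Set (Fin s) → Prop
  lt : ∀ t, ∀ u ∈ gates t, u < t
  out : Fin s

variable {ι : Type} {s : ℕ}

/-- Gate `t` of the circuit takes the value true on the input `A`. -/
def FCircuit.Val (C : FCircuit ι s) (A : ι → Bool) (t : Fin s) : Prop :=
  if C.free t = true then
    C.fn t {i | i ∈ C.ins t ∧ A i = true} {u | ∃ _h : u ∈ C.gates t, C.Val A u}
  else if C.isAnd t = true then
    (∀ i ∈ C.ins t, A i = true) ∧ ∀ u : {u : Fin s // u ∈ C.gates t}, C.Val A u.1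
  else (∃ i ∈ C.ins t, A i = true) ∨ ∃ u : {u : Fin s // u ∈ C.gates t}, C.Val A u.1
termination_by t
decreasing_by
  · exact C.lt t u _h
  all_goals exact C.lt t u.1 u.2

/-- The circuit accepts the input `A`: its output gate takes the value true. -/
def FCircuit.Accepts (C : FCircuit ι s) (A : ι → Bool) : Prop := C.Val A C.out

/-- the inputs which are arguments of free gates -/
def FCircuit.Read (C : FCircuit ι s) (i : ι) : Prop := ∃ t, C.free t = true ∧ i ∈ C.ins t

/-- the gates which are arguments of free gates -/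
def FCircuit.Arg (C : FCircuit ι s) (u : Fin s) : Prop := ∃ t, C.free t = true ∧ u ∈ C.gates t

/-- All arguments of free gates, and the output, have the same values on `A` and on `B`. -/
def FCircuit.Same (C : FCircuit ι s) (A B : ι → Bool) : Prop :=
  (∀ i, C.Read i → A i = B i) ∧ (∀ u, C.Arg u → (C.Val A u ↔ C.Val B u)) ∧
    (C.Accepts A ↔ C.Accepts B)

/-- the number of steps of the sequence `A 0, …, A L` in which an argument of a free gate, or the
output, changes its value -/
noncomputable def FCircuit.changes (C : FCircuit ι s) (A : ℕ → ι → Bool) (L : ℕ) : ℕ :=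
  Nat.card {i : ℕ // i < L ∧ ¬ C.Same (A i) (A (i + 1))}

/-- The formulas `A 0, …, A L` are increasing, each clause is altered at most once, and only clauses
in `M` are altered. -/
def Rising {n m : ℕ} (M : Finset (Fin m)) (A : ℕ → Formula n m) (L : ℕ) : Prop :=
  (∀ i < L, ∀ l, A i l = true → A (i + 1) l = true) ∧
    (∀ i < L, ∀ j l, A i (j, l) ≠ A (i + 1) (j, l) → j ∈ M) ∧
    ∀ j, ∀ i < L, ∀ i' < L, (∃ l, A i (j, l) ≠ A (i + 1) (j, l)) →
      (∃ l, A i' (j, l) ≠ A (i' + 1) (j, l)) → i = i'

/-- `lev` is a level function: levels do not decrease along wires, and increase at free gates. -/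
def FCircuit.Levels (C : FCircuit ι s) (lev : Fin s → ℕ) : Prop :=
  ∀ t, ∀ u ∈ C.gates t, lev u ≤ lev t ∧ (C.free t = true → lev u < lev t)

/-- the weight of the circuit for the level function `lev`: the number of clauses in `M` from which
free gates read entries, plus 1, times the product over the levels of the number of gates of this
level which are arguments of free gates, plus 1 -/
noncomputable def FCircuit.weight {n m s : ℕ} (C : FCircuit (Fin m × (Fin n × Bool)) s)
    (M : Finset (Fin m)) (lev : Fin s → ℕ) : ℕ :=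
  (Nat.card {j : Fin m // j ∈ M ∧ ∃ l, C.Read (j, l)} + 1) *
    ∏ i ∈ univ.image lev, (Nat.card {u : Fin s // C.Arg u ∧ lev u = i} + 1)

lemma FCircuit.val_free (C : FCircuit ι s) (A : ι → Bool) {t : Fin s} (h : C.free t = true) :
    C.Val A t ↔ C.fn t {i | i ∈ C.ins t ∧ A i = true} {u | u ∈ C.gates t ∧ C.Val A u} := by
  rw [FCircuit.Val, if_pos h]
  have h1 : {u | ∃ _ : u ∈ C.gates t, C.Val A u} = {u | u ∈ C.gates t ∧ C.Val A u} := by
    ext u
    simp
  rw [h1]

lemma FCircuit.val_and (C : FCircuit ι s) (A : ι → Bool) {t : Fin s} (h : ¬ C.free t = true)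
    (h2 : C.isAnd t = true) :
    C.Val A t ↔ (∀ i ∈ C.ins t, A i = true) ∧ ∀ u ∈ C.gates t, C.Val A u := by
  rw [FCircuit.Val, if_neg h, if_pos h2]
  simp

lemma FCircuit.val_or (C : FCircuit ι s) (A : ι → Bool) {t : Fin s} (h : ¬ C.free t = true)
    (h2 : ¬ C.isAnd t = true) :
    C.Val A t ↔ (∃ i ∈ C.ins t, A i = true) ∨ ∃ u ∈ C.gates t, C.Val A u := by
  rw [FCircuit.Val, if_neg h, if_neg h2]
  simp

end Pool.Agent.H78.FG
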