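import Pool.Agent.H78.FG.Par
import Pool.Agent.H92.Mono.Mom
import Pool.Agent.H13.Mono.KH
import Pool.Agent.H75.Mono.PART
import Pool.Agent.H97.Mono.Lvl2
import Pool.Agent.H97.Mono.Fr2

/-!
# The lower bound for circuits with free gates
-/

open Finset Pool.Agent.H1.Mono

namespace Pool.Agent.H78.FG

/-- families for the cases in which the bound says nothing -/
lemma trivial_case (n m w : ℕ) (hn : 0 < n) {M : Finset (Fin m)} (hM : M.Nonempty) (R : ℕ) :
    ∃ (κ X : Type) (_ : Fintype κ) (_ : Fintype X) (_ : Nonempty κ) (_ : Nonempty X)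
      (A : κ → ℕ → Formula n m) (P : κ → ℕ → X → Formula n m),
      (∀ k, Rising M (A k) R) ∧ (∀ k t, ¬ Satisfiable (A k t)) ∧
      (∀ k, ∀ t < R, ∀ x, Satisfiable (P k t x)) ∧
      (∀ k t x l, A k t l = true → P k t x l = true) ∧
      (∀ k t, ∀ j ∉ M, ∀ l, A k t (j, l) = true) ∧
      (∀ k t, Narrow w (A k t)) ∧ (∀ k t x, Narrow w (P k t x)) := by
  classical
  have h1 : Satisfiable (fun _ => true : Formula n m) := ⟨fun _ => true, fun _ => ⟨⟨0, hn⟩, rfl⟩⟩
  have h2 : Narrow w (fun _ => true : Formula n m) := fun _ => Or.inl ⟨⟨0, hn⟩, rfl, rfl⟩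
  refine ⟨Unit, Unit, inferInstance, inferInstance, inferInstance, inferInstance,
    fun _ _ l => decide (l.1 ∉ M), fun _ _ _ _ => true, ?_, ?_, ?_, ?_, ?_, ?_, ?_⟩
  · intro _
    refine ⟨fun i _ l hl => hl, fun i _ j l hne => absurd rfl hne, ?_⟩
    rintro j i _ i' _ ⟨l, hl⟩ _
    exact absurd rfl hl
  · rintro _ _ ⟨x, hx⟩
    obtain ⟨j, hj⟩ := hM
    obtain ⟨i, hi⟩ := hx j
    have hi' : decide (j ∉ M) = true := hi
    rw [decide_eq_true_eq] at hi'
    exact hi' hj
  · exact fun _ _ _ _ => h1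
  · exact fun _ _ _ _ _ => rfl
  · intro _ _ j hj l
    change decide (j ∉ M) = true
    rw [decide_eq_true_eq]
    exact hj
  · intro _ _ j
    by_cases hj : j ∈ M
    · right
      have h3 : ∀ l : Fin n × Bool, decide ((j, l).1 ∉ M) = false := fun l => by
        rw [decide_eq_false_iff_not, not_not]
        exact hj
      simp [h3]
    · left
      refine ⟨⟨0, hn⟩, ?_, ?_⟩ <;>
      · change decide (j ∉ M) = true
        rw [decide_eq_true_eq]
        exact hj
  · exact fun _ _ _ => h2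

/-- circuits with free gates -/
theorem main (n m : ℕ) (hn2 : 2 ≤ n) (M : Finset (Fin m)) (hM : M.Nonempty) (D : ℝ) (hD : 0 < D) :
    ∃ (R : ℕ) (κ X : Type) (_ : Fintype κ) (_ : Fintype X) (_ : Nonempty κ) (_ : Nonempty X)
      (A : κ → ℕ → Formula n m) (P : κ → ℕ → X → Formula n m),
      2 * (2 : ℝ) ^ (min (Real.logb 2 (2 * M.card * n)) (Real.sqrt n) - D) < R ∧
      (∀ k, Rising M (A k) R) ∧ (∀ k t, ¬ Satisfiable (A k t)) ∧
      (∀ k, ∀ t < R, ∀ x, Satisfiable (P k t x)) ∧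
      (∀ k t x l, A k t l = true → P k t x l = true) ∧
      (∀ k t, ∀ j ∉ M, ∀ l, A k t (j, l) = true) ∧
      (∀ k t, Narrow (Nat.log 2 M.card) (A k t)) ∧
      (∀ k t x, Narrow (Nat.log 2 M.card) (P k t x)) ∧
      ∀ (s : ℕ) (C : FCircuit (Fin m × (Fin n × Bool)) s),
        (s : ℝ) < 2 ^ ((1 - 15 * Real.logb 2 n / D) * n) →
        ∑ k, ∑ x, (Nat.card {t : ℕ // t < R ∧
            ¬ (C.Accepts (A k t) ↔ C.Accepts (P k t x))} : ℝ) ≤
          2 * Fintype.card X * ∑ k, ((C.changes (A k) R : ℝ) + 1) := by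
  have hnR : (2 : ℝ) ≤ n := by exact_mod_cast hn2
  have hmpos : 0 < M.card := card_pos.2 hM
  have hmR : (0 : ℝ) < M.card := by exact_mod_cast hmpos
  set x := Real.logb 2 n with hx
  have hx1 : 1 ≤ x := by
    rw [hx, Real.le_logb_iff_rpow_le (by norm_num) (by linarith), Real.rpow_one]
    exact hnR
  set B := min (Real.logb 2 (2 * M.card * n)) (Real.sqrt n) with hB
  rcases lt_or_ge D (15 * x) with hDx | hDx
  · -- the exponent is negative
    obtain ⟨R, hR⟩ := exists_nat_gt (2 * (2 : ℝ) ^ (B - D))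
    obtain ⟨κ, X, hκ, hX, hκne, hXne, A, P, h1, h2, h3, h4, h5, h6, h7⟩ :=
      trivial_case n m (Nat.log 2 M.card) (by omega) hM R
    refine ⟨R, κ, X, hκ, hX, hκne, hXne, A, P, hR, h1, h2, h3, h4, h5, h6, h7, fun s C hs => ?_⟩
    exfalso
    have h7 : 1 ≤ s := by
      have := C.out.2
      omega
    have h8 : (1 : ℝ) ≤ s := by exact_mod_cast h7
    have h9 : (2 : ℝ) ^ ((1 - 15 * x / D) * n) ≤ 1 := by
      refine Real.rpow_le_one_of_one_le_of_nonpos (by norm_num) ?_
      have h3 : 1 ≤ 15 * x / D := by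
        rw [le_div_iff₀ hD]
        linarith
      nlinarith
    linarith
  rcases lt_or_ge B D with hDB | hDB
  · -- two steps
    obtain ⟨κ, X, hκ, hX, hκne, hXne, A, P, h1, h2, h3, h4, h5, h6, h7⟩ :=
      trivial_case n m (Nat.log 2 M.card) (by omega) hM 2
    refine ⟨2, κ, X, hκ, hX, hκne, hXne, A, P, ?_, h1, h2, h3, h4, h5, h6, h7, fun s C _ => ?_⟩
    · have h8 : (2 : ℝ) ^ (B - D) < 1 :=
        Real.rpow_lt_one_of_one_lt_of_neg (by norm_num) (by linarith)
      push_cast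
      linarith
    · have h8 : ∀ k x, (Nat.card {t : ℕ // t < 2 ∧
            ¬ (C.Accepts (A k t) ↔ C.Accepts (P k t x))} : ℝ) ≤ 2 := by
        intro k x
        have h9 : Nat.card {t : ℕ // t < 2 ∧ ¬ (C.Accepts (A k t) ↔ C.Accepts (P k t x))} ≤ 2 := by
          classical
          rw [card_changes]
          exact (card_filter_le _ _).trans (card_range 2).le
        exact_mod_cast h9
      calc _ ≤ ∑ k : κ, ∑ x : X, (2 : ℝ) := sum_le_sum fun k _ => sum_le_sum fun x _ => h8 k x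
        _ = 2 * Fintype.card X * ∑ k : κ, (1 : ℝ) := by
            rw [sum_const, sum_const, sum_const, card_univ, card_univ, nsmul_eq_mul, nsmul_eq_mul,
              nsmul_eq_mul]
            ring
        _ ≤ _ := by
            refine mul_le_mul_of_nonneg_left (sum_le_sum fun k _ => ?_) (by positivity)
            have : (0 : ℝ) ≤ C.changes (A k) 2 := Nat.cast_nonneg _
            linarith
  obtain ⟨L, hL⟩ : ∃ L, L = min (Nat.log 2 M.card) (Nat.sqrt n) := ⟨_, rfl⟩
  have hLm : L ≤ Nat.log 2 M.card := by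
    rw [hL]
    exact min_le_left _ _
  have hL1 : 2 ^ L ≤ M.card :=
    le_trans (Nat.pow_le_pow_right (by norm_num) hLm) (Nat.pow_log_le_self 2 hmpos.ne')
  have hL2 : L ^ 2 ≤ n := by
    have h1 : L ≤ Nat.sqrt n := by
      rw [hL]
      exact min_le_right _ _
    exact (Nat.pow_le_pow_left h1 2).trans (Nat.sqrt_le' n)
  have h1 : Real.logb 2 M.card < Nat.log 2 M.card + 1 := by
    rw [Real.logb_lt_iff_lt_rpow (by norm_num) hmR]
    have h2 : M.card < 2 ^ (Nat.log 2 M.card + 1) := Nat.lt_pow_succ_log_self (by norm_num) _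
    have h3 : (M.card : ℝ) < 2 ^ (Nat.log 2 M.card + 1) := by exact_mod_cast h2
    rw [← Real.rpow_natCast] at h3
    push_cast at h3
    exact h3
  have h2 : Real.sqrt n < Nat.sqrt n + 1 := by
    rw [Real.sqrt_lt' (by positivity)]
    have h3 : n < (Nat.sqrt n + 1) ^ 2 := Nat.lt_succ_sqrt' n
    exact_mod_cast h3
  have hlog2 : Real.logb 2 (2 * M.card * n) = 1 + Real.logb 2 M.card + x := by
    rw [Real.logb_mul (by positivity) (by positivity), Real.logb_mul (by norm_num) hmR.ne',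
      Real.logb_self_eq_one (by norm_num)]
  have hmin : B < L + 2 + x := by
    rw [hL, Nat.cast_min, hB]
    rcases le_total (Nat.log 2 M.card : ℝ) (Nat.sqrt n : ℝ) with h3 | h3
    · rw [min_eq_left h3]
      refine lt_of_le_of_lt (min_le_left _ _) ?_
      rw [hlog2]
      linarith
    · rw [min_eq_right h3]
      refine lt_of_le_of_lt (min_le_right _ _) ?_
      linarith
  have hB0 : 0 ≤ B - D := by linarith
  obtain ⟨r, hr⟩ : ∃ r, r = ⌊B - D⌋₊ := ⟨_, rfl⟩
  have hr1 : (r : ℝ) ≤ B - D := by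
    rw [hr]
    exact Nat.floor_le hB0
  have hr2 : B - D < r + 1 := by
    rw [hr]
    exact Nat.lt_floor_add_one _
  have hgap : D < (L : ℝ) - r + 2 + x := by linarith
  have hrL : r < L := by
    have : (r : ℝ) < L := by linarith
    exact_mod_cast this
  have hDn : D ^ 2 ≤ n := by
    have h3 : D ≤ Real.sqrt n := hDB.trans (min_le_right _ _)
    calc D ^ 2 ≤ Real.sqrt n ^ 2 := pow_le_pow_left₀ hD.le h3 2
      _ = n := Real.sq_sqrt (by linarith)
  obtain ⟨κ, X, hκ, hX, hκne, hXne, A, P, hA1, hA2, hP1, hAP, hAM, hA3, hP3, hmain⟩ :=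
    trade (Pool.Agent.H97.Mono.fr2 (Pool.Agent.H97.Mono.lvl2 (Pool.Agent.H92.Mono.mom KH)))
      Pool.Agent.H75.Mono.part (M := M) hn2 hL2 hrL hL1 hDx hDn hgap
  refine ⟨2 ^ (r + 2), κ, X, hκ, hX, hκne, hXne, A, P, ?_, hA1, hA2, hP1, hAP, hAM, fun k t => ?_,
    fun k t y => ?_, fun s C hs => ?_⟩
  · have h4 : (2 : ℝ) ^ (B - D) < 2 ^ ((r : ℝ) + 1) :=
      Real.rpow_lt_rpow_of_exponent_lt (by norm_num) hr2
    rw [Real.rpow_add (by norm_num), Real.rpow_natCast, Real.rpow_one] at h4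
    push_cast
    rw [pow_add]
    linarith
  · intro j
    rcases hA3 k t j with h | h
    · exact Or.inl h
    · exact Or.inr (h.trans hLm)
  · intro j
    rcases hP3 k t y j with h | h
    · exact Or.inl h
    · exact Or.inr (h.trans hLm)
  · exact hmain s C (by rwa [mul_comm] at hs)

end Pool.Agent.H78.FG
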