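import Mathlib

/-!
# Integer parameters
-/

namespace Pool.Agent.H78.FG

/-- the integer parameters -/
lemma params {n L r q : ℕ} (hnl : n < 2 ^ (q + 16)) (hL : L ^ 2 ≤ n) (hr : r < L)
    (hD : 14 * q + 209 ≤ L - r) : ∃ σ ν h b a j0 e : ℕ,
      σ = r + 2 ∧ ν = h + 1 ∧ 2 ≤ h ∧ h ≤ 2 ^ a ∧ 2 ^ a ≤ 2 * h ∧ σ + ν * b ≤ n ∧
      n < σ + ν * b + b ∧ σ + 2 * (q + 10) + 2 * b ≤ L ∧ L - r ≤ 2 * b + 2 * q + 23 ∧
      ν ≤ 2 ^ (q + 10) ∧ 8 * j0 ^ 2 ≤ 2 ^ a ∧ j0 ≤ h ∧ σ + 1 ≤ e * (j0 + 1) ∧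
      b = e + (5 * q + 65) ∧ a + 1 ≤ b := by
  obtain ⟨b, hb⟩ : ∃ b, b = (L - r - 2 * q - 22) / 2 := ⟨_, rfl⟩
  obtain ⟨σ, hσ⟩ : ∃ σ, σ = r + 2 := ⟨_, rfl⟩
  obtain ⟨u, hu⟩ : ∃ u, u = σ + 1 := ⟨_, rfl⟩
  have hb93 : 6 * q + 93 ≤ b := by omega
  have hbpos : 0 < b := by omega
  have hσL : σ + 2 * (q + 10) + 2 * b ≤ L := by omega
  have huL : u + 2 * b ≤ L := by omega
  obtain ⟨e, he⟩ : ∃ e, b = e + (5 * q + 65) := ⟨b - (5 * q + 65), by omega⟩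
  have he28 : q + 28 ≤ e := by omega
  have hepos : 0 < e := by omega
  have hnL : u ^ 2 + 4 * u * b + 4 * b ^ 2 ≤ n := by
    have h1 : (u + 2 * b) ^ 2 ≤ L ^ 2 := Nat.pow_le_pow_left huL 2
    have h2 : (u + 2 * b) ^ 2 = u ^ 2 + 4 * u * b + 4 * b ^ 2 := by ring
    omega
  have hub : u ≤ 4 * u * b := by
    calc u = u * 1 := (mul_one u).symm
      _ ≤ u * (4 * b) := Nat.mul_le_mul_left _ (by omega)
      _ = 4 * u * b := by ring
  have hbb : 3 * b ≤ 4 * b ^ 2 := by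
    have h1 : b * 1 ≤ b * b := Nat.mul_le_mul_left _ hbpos
    have h2 : b ^ 2 = b * b := pow_two b
    omega
  have hσn : σ + 3 * b ≤ n := by
    have : 0 ≤ u ^ 2 := Nat.zero_le _
    omega
  obtain ⟨ν, hν⟩ : ∃ ν, ν = (n - σ) / b := ⟨_, rfl⟩
  have hν1 : ν * b ≤ n - σ := by
    rw [hν]
    exact Nat.div_mul_le_self _ _
  have hν2 : n - σ < ν * b + b := by
    rw [hν]
    exact Nat.lt_div_mul_add hbpos
  have hν3 : 3 ≤ ν := by
    rw [hν, Nat.le_div_iff_mul_le hbpos]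
    omega
  obtain ⟨h, hh⟩ : ∃ h, ν = h + 1 := ⟨ν - 1, by omega⟩
  have hh2 : 2 ≤ h := by omega
  have hνb : ν * b = h * b + b := by
    rw [hh]
    ring
  have hhb : u ^ 2 ≤ h * b := by omega
  have he2 : 8 * b ≤ e ^ 2 := by
    have h1 : (q + 28) * e ≤ e * e := Nat.mul_le_mul_right _ he28
    obtain ⟨f, hf⟩ : ∃ f, e = q + 28 + f := ⟨e - (q + 28), by omega⟩
    rw [he, hf]
    have h2 : (q + 28 + f) ^ 2 = q ^ 2 + f ^ 2 + 2 * (q * f) + 56 * q + 56 * f + 784 := by ring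
    rw [h2]
    have h3 : 0 ≤ q ^ 2 := Nat.zero_le _
    have h4 : 0 ≤ f ^ 2 := Nat.zero_le _
    have h5 : 0 ≤ q * f := Nat.zero_le _
    omega
  obtain ⟨j0, hj0⟩ : ∃ j0, j0 = u / e := ⟨_, rfl⟩
  have hj1 : j0 * e ≤ u := by
    rw [hj0]
    exact Nat.div_mul_le_self _ _
  have hj2 : u < j0 * e + e := by
    rw [hj0]
    exact Nat.lt_div_mul_add hepos
  have hj3 : 8 * j0 ^ 2 ≤ h := by
    have h1 : 8 * j0 ^ 2 * e ^ 2 ≤ h * e ^ 2 := by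
      calc 8 * j0 ^ 2 * e ^ 2 = 8 * (j0 * e) ^ 2 := by ring
        _ ≤ 8 * u ^ 2 := Nat.mul_le_mul_left _ (Nat.pow_le_pow_left hj1 2)
        _ ≤ 8 * (h * b) := Nat.mul_le_mul_left _ hhb
        _ = h * (8 * b) := by ring
        _ ≤ h * e ^ 2 := Nat.mul_le_mul_left _ he2
    exact Nat.le_of_mul_le_mul_right h1 (by positivity)
  have hj4 : j0 ≤ h := by
    refine le_trans ?_ hj3
    calc j0 ≤ j0 ^ 2 := Nat.le_self_pow (by norm_num) j0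
      _ ≤ 8 * j0 ^ 2 := Nat.le_mul_of_pos_left _ (by norm_num)
  have hν10 : ν ≤ 2 ^ (q + 10) := by
    have h1 : ν * 64 ≤ ν * b := Nat.mul_le_mul_left _ (by omega)
    have h2 : ν * 64 < 2 ^ (q + 16) := by omega
    have h3 : (2 : ℕ) ^ (q + 16) = 2 ^ (q + 10) * 64 := by
      rw [show q + 16 = q + 10 + 6 by ring, pow_add]
      norm_num
    omega
  obtain ⟨a, ha⟩ : ∃ a, a = Nat.clog 2 h := ⟨_, rfl⟩
  have ha1 : h ≤ 2 ^ a := by
    rw [ha]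
    exact Nat.le_pow_clog (by norm_num) h
  have ha0 : 1 ≤ a := by
    by_contra hlt
    have h1 : a = 0 := by omega
    rw [h1, pow_zero] at ha1
    omega
  have ha2 : 2 ^ a ≤ 2 * h := by
    have h1 : 2 ^ (Nat.clog 2 h).pred < h := Nat.pow_pred_clog_lt_self (by norm_num) (by omega)
    obtain ⟨c, hc⟩ : ∃ c, a = c + 1 := ⟨a - 1, by omega⟩
    rw [← ha, hc, Nat.pred_succ] at h1
    rw [hc, pow_succ]
    omega
  refine ⟨σ, ν, h, b, a, j0, e, hσ, hh, hh2, ha1, ha2, by omega, by omega, hσL, by omega, hν10,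
    hj3.trans ha1, hj4, ?_, he, ?_⟩
  · have : e * (j0 + 1) = j0 * e + e := by ring
    omega
  · have h1 : 2 ^ a < 2 ^ (q + 11) := by
      have h2 : (2 : ℕ) ^ (q + 11) = 2 ^ (q + 10) * 2 := by
        rw [show q + 11 = q + 10 + 1 by ring, pow_succ]
      omega
    have h2 := (Nat.pow_lt_pow_iff_right (by norm_num : 1 < 2)).1 h1
    omega

/-- the exponent -/
lemma exponent {n L r q σ ν b : ℕ} {x D : ℝ} (hL : L ^ 2 ≤ n)
    (hx : (q : ℝ) + 15 ≤ x) (hDx : 15 * x ≤ D) (hDn : D ^ 2 ≤ n) (hDL : D < (L : ℝ) - r + 2 + x)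
    (hn1 : σ + ν * b ≤ n) (hn2 : n < σ + ν * b + b) (hσL : σ + 2 * (q + 10) + 2 * b ≤ L)
    (hLb : (L : ℝ) - r ≤ 2 * b + 2 * q + 23) :
    (n : ℝ) * (1 - 15 * x / D) ≤ ((ν * b : ℕ) : ℝ) - (((5 * q + 65) * ν + σ + 1 : ℕ) : ℝ) := by
  have hq0 : (0 : ℝ) ≤ q := Nat.cast_nonneg _
  have hx15 : 15 ≤ x := by linarith
  have hDpos : 0 < D := by linarith
  have hν0 : (0 : ℝ) ≤ ν := Nat.cast_nonneg _
  have hb0 : (0 : ℝ) ≤ b := Nat.cast_nonneg _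
  have e1 : (σ : ℝ) + ν * b ≤ n := by exact_mod_cast hn1
  have e2 : (n : ℝ) ≤ σ + ν * b + b := by exact_mod_cast hn2.le
  have e3 : (σ : ℝ) + 2 * (q + 10) + 2 * b ≤ L := by exact_mod_cast hσL
  have e4 : (L : ℝ) ^ 2 ≤ n := by exact_mod_cast hL
  have hσ0 : (0 : ℝ) ≤ σ := Nat.cast_nonneg _
  have hE : D - 3 * x + 5 ≤ 2 * b := by linarith
  have hEpos : 0 < D - 3 * x + 5 := by linarith
  have hn0 : (0 : ℝ) ≤ n := Nat.cast_nonneg _
  have h1 : D * (10 * x - 20) ≤ (15 * x - 2) * (D - 3 * x + 5) := by nlinarith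
  have h2 : D * (5 * x - 10) * ν ≤ (15 * x - 2) * n := by
    have h3 : D * (10 * x - 20) * ν ≤ (15 * x - 2) * (D - 3 * x + 5) * ν :=
      mul_le_mul_of_nonneg_right h1 hν0
    have h4 : (15 * x - 2) * (D - 3 * x + 5) * ν ≤ (15 * x - 2) * (2 * b) * ν := by
      refine mul_le_mul_of_nonneg_right ?_ hν0
      exact mul_le_mul_of_nonneg_left hE (by linarith)
    have h5 : (15 * x - 2) * (ν * b) ≤ (15 * x - 2) * n :=
      mul_le_mul_of_nonneg_left (by linarith) (by linarith)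
    nlinarith
  have h3 : D * L ≤ n := by nlinarith [sq_nonneg (D - L)]
  have h4 : D * (2 * σ + b + 1) ≤ 2 * n := by
    have h5 : D * (2 * σ + b + 1) ≤ D * (2 * L) :=
      mul_le_mul_of_nonneg_left (by linarith) hDpos.le
    linarith
  have h5 : D * (5 * q + 65) * ν ≤ D * (5 * x - 10) * ν := by
    refine mul_le_mul_of_nonneg_right ?_ hν0
    exact mul_le_mul_of_nonneg_left (by linarith) hDpos.le
  have h6 : (5 * (q : ℝ) + 65) * ν + (2 * σ + b + 1) ≤ 15 * x / D * n := by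
    rw [div_mul_eq_mul_div, le_div_iff₀ hDpos]
    nlinarith
  push_cast
  have h7 : (n : ℝ) * (1 - 15 * x / D) = n - 15 * x / D * n := by ring
  rw [h7]
  linarith

end Pool.Agent.H78.FG
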