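import Pool.Agent.H78.FG.Core
import Pool.Agent.H78.FG.Params

/-!
# Choice of the parameters
-/

open Finset Pool.Agent.H1.Mono

namespace Pool.Agent.H78.FG

/-- the trade-off in the main range -/
theorem trade (hFR : FR2_target) (hPART : PART_target) {n m L r : ℕ} {M : Finset (Fin m)} {D : ℝ}
    (hn : 2 ≤ n) (hL : L ^ 2 ≤ n) (hr : r < L) (hm : 2 ^ L ≤ M.card)
    (hDx : 15 * Real.logb 2 n ≤ D) (hDn : D ^ 2 ≤ n) (hDL : D < (L : ℝ) - r + 2 + Real.logb 2 n) :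
    ∃ (κ X : Type) (_ : Fintype κ) (_ : Fintype X) (_ : Nonempty κ) (_ : Nonempty X)
      (A : κ → ℕ → Formula n m) (P : κ → ℕ → X → Formula n m),
      (∀ k, Rising M (A k) (2 ^ (r + 2))) ∧ (∀ k t, ¬ Satisfiable (A k t)) ∧
      (∀ k, ∀ t < 2 ^ (r + 2), ∀ x, Satisfiable (P k t x)) ∧
      (∀ k t x l, A k t l = true → P k t x l = true) ∧
      (∀ k t, ∀ j ∉ M, ∀ l, A k t (j, l) = true) ∧
      (∀ k t, Narrow L (A k t)) ∧ (∀ k t x, Narrow L (P k t x)) ∧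
      ∀ (s : ℕ) (C : FCircuit (Fin m × (Fin n × Bool)) s),
        (s : ℝ) < 2 ^ ((n : ℝ) * (1 - 15 * Real.logb 2 n / D)) →
        ∑ k, ∑ x, (Nat.card {t : ℕ // t < 2 ^ (r + 2) ∧
            ¬ (C.Accepts (A k t) ↔ C.Accepts (P k t x))} : ℝ) ≤
          2 * Fintype.card X * ∑ k, ((C.changes (A k) (2 ^ (r + 2)) : ℝ) + 1) := by
  classical
  have hnR : (0 : ℝ) < n := by
    have : 0 < n := by omega
    exact_mod_cast this
  obtain ⟨l, hl⟩ : ∃ l, l = Nat.log 2 n + 1 := ⟨_, rfl⟩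
  have hnl : n < 2 ^ l := by
    rw [hl]
    exact Nat.lt_pow_succ_log_self (by norm_num) n
  have hln : 2 ^ (l - 1) ≤ n := by
    rw [hl, Nat.add_sub_cancel]
    exact Nat.pow_log_le_self 2 (by omega)
  have hl2 : 2 ≤ l := by
    rw [hl]
    have : 1 ≤ Nat.log 2 n := Nat.le_log_of_pow_le (by norm_num) (by omega)
    omega
  have hx : ((l - 1 : ℕ) : ℝ) ≤ Real.logb 2 n := by
    rw [Real.le_logb_iff_rpow_le (by norm_num) hnR, Real.rpow_natCast]
    exact_mod_cast hln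
  have hD : 14 * l < (L - r) + 16 := by
    have h1 : ((14 * (l - 1) : ℕ) : ℝ) < ((L - r + 2 : ℕ) : ℝ) := by
      push_cast
      rw [Nat.cast_sub hr.le]
      have h2 : ((l - 1 : ℕ) : ℝ) = (l : ℝ) - 1 := by
        rw [Nat.cast_sub (by omega)]
        simp
      rw [h2] at hx ⊢
      linarith
    have h2 : 14 * (l - 1) < L - r + 2 := by exact_mod_cast h1
    omega
  have hl16 : 16 ≤ l := by
    by_contra hlt
    have h1 : 14 * l - 15 ≤ L := by omega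
    have h2 : (14 * l - 15) ^ 2 < 2 ^ l := lt_of_le_of_lt
      ((Nat.pow_le_pow_left h1 2).trans hL) hnl
    have h3 : l < 16 := by omega
    interval_cases l <;> norm_num at h2
  obtain ⟨q, hq⟩ : ∃ q, l = q + 16 := ⟨l - 16, by omega⟩
  have hxq : (q : ℝ) + 15 ≤ Real.logb 2 n := by
    have h2 : ((l - 1 : ℕ) : ℝ) = (q : ℝ) + 15 := by
      rw [hq]
      push_cast
      norm_num
    rwa [h2] at hx
  obtain ⟨σ, ν, h, b, a, j0, e, hσ, hν, hh, hh1, hh2, hn1, hn2, hσL, hLb, hν10, hj0, hj0h, hj1, hbe,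
    hab⟩ := params (q := q) (by rwa [← hq]) hL hr (by omega)
  have hn0 : 0 < n := by omega
  have hlam0 : (0 : ℝ) < ((2 : ℝ) ^ (5 * q + 65))⁻¹ := by positivity
  have hlam1 : ((2 : ℝ) ^ (5 * q + 65))⁻¹ < 1 := by
    apply inv_lt_one_of_one_lt₀
    exact one_lt_pow₀ (by norm_num) (by omega)
  have hνb : ν * b ≤ n := by omega
  obtain ⟨Δ, hΔ⟩ : ∃ Δ, Δ = 2 * (ν * b) + ν * (1 + a) + 3 := ⟨_, rfl⟩
  have hΔn : Δ ≤ 4 * n := by
    have h1 : ν * (1 + a) ≤ ν * b := Nat.mul_le_mul_left _ (by omega)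
    have h2 : 3 ≤ n := by
      have h3 : 1 * 3 ≤ ν * b := Nat.mul_le_mul (by omega) (by omega)
      omega
    omega
  have hm' : 2 ^ σ * (ν ^ 2 * 4 ^ b) ≤ M.card := by
    refine le_trans ?_ hm
    calc 2 ^ σ * (ν ^ 2 * 4 ^ b) ≤ 2 ^ σ * ((2 ^ (q + 10)) ^ 2 * 4 ^ b) := by
          gcongr
      _ = 2 ^ (σ + 2 * (q + 10) + 2 * b) := by
          rw [show (4 : ℕ) = 2 ^ 2 by norm_num, ← pow_mul, ← pow_mul, ← pow_add, ← pow_add]
          congr 1
          ring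
      _ ≤ 2 ^ L := Nat.pow_le_pow_right (by norm_num) hσL
  have hlamΔ : 32 * Δ * ν ^ 2 * 4 ^ a ≤ 2 ^ (5 * q + 65) := by
    calc 32 * Δ * ν ^ 2 * 4 ^ a
        ≤ 32 * (4 * 2 ^ (q + 16)) * (2 ^ (q + 10)) ^ 2 * (2 ^ (q + 11)) ^ 2 := by
          have h2 : Δ ≤ 4 * 2 ^ (q + 16) := by
            rw [hq] at hnl
            omega
          have h4 : 4 ^ a ≤ (2 ^ (q + 11)) ^ 2 := by
            rw [show (4 : ℕ) = 2 ^ 2 by norm_num, ← pow_mul, mul_comm 2 a, pow_mul]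
            refine Nat.pow_le_pow_left ?_ 2
            have h5 : (2 : ℕ) ^ (q + 11) = 2 ^ (q + 10) * 2 := by
              rw [show q + 11 = q + 10 + 1 by ring, pow_succ]
            omega
          gcongr
      _ = 2 ^ (5 * q + 65) := by
          rw [show (32 : ℕ) = 2 ^ 5 by norm_num, show (4 : ℕ) = 2 ^ 2 by norm_num, ← pow_mul,
            ← pow_mul, ← pow_add, ← pow_add, ← pow_add, ← pow_add]
          congr 1
          ring
  obtain ⟨κ, X, hκ, hX, hκne, hXne, A, P, hA1, hA2, hP1, hAP, hAM, hA3, hP3, hXc, hmain⟩ :=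
    core hFR hPART (n := n) (m := m) (M := M)
    (σ := σ) (ν := ν) (h := h) (a := a) (b := b) (j0 := j0) (Δ := Δ) (K := 2)
    (lam := ((2 : ℝ) ^ (5 * q + 65))⁻¹)
    (T0 := (2 : ℝ) ^ (b * ν) / 2 ^ (e * (j0 + 1))) hν hh hh1 hh2 hn1 hm' hn0 hlam0 hlam1
    (by positivity) (by omega) (by norm_num) (by omega) hj0h
    (by
      intro j hj hjν
      rw [inv_pow, ← div_eq_mul_inv, div_div, le_div_iff₀ (by positivity), ← pow_mul]
      push_cast
      rw [← pow_mul, ← pow_add, ← pow_add]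
      refine pow_le_pow_right₀ (by norm_num) ?_
      obtain ⟨d, hd⟩ : ∃ d, ν = j + d := ⟨ν - j, by omega⟩
      rw [hd, Nat.add_sub_cancel_left, hbe]
      have h1 : e * (j0 + 1) ≤ e * j := Nat.mul_le_mul_left _ hj
      have h2 : (e + (5 * q + 65)) * d + (e * (j0 + 1) + (5 * q + 65) * j) ≤
          (e + (5 * q + 65)) * d + (e * j + (5 * q + 65) * j) := by omega
      refine h2.trans (le_of_eq ?_)
      ring)
    (by
      rw [← div_eq_mul_inv, div_le_one (by positivity)]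
      exact_mod_cast hlamΔ)
  have hσb : σ + 2 * b ≤ L := by omega
  rw [← hσ]
  refine ⟨κ, X, hκ, hX, hκne, hXne, A, P, hA1, hA2, hP1, hAP, hAM, ?_, ?_, ?_⟩
  · intro k t j
    rcases hA3 k t j with h | h
    · exact Or.inl h
    · exact Or.inr (h.trans hσb)
  · intro k t x j
    rcases hP3 k t x j with h | h
    · exact Or.inl h
    · exact Or.inr (h.trans hσb)
  intro s C hsize
  -- the exponent
  obtain ⟨c, hc⟩ : ∃ c, c = (5 * q + 65) * ν + σ + 1 := ⟨_, rfl⟩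
  have hexp : (n : ℝ) * (1 - 15 * Real.logb 2 n / D) ≤ ((ν * b : ℕ) : ℝ) - (c : ℝ) := by
    rw [hc]
    refine exponent hL hxq hDx hDn hDL hn1 hn2 hσL ?_
    have h1 : ((L - r : ℕ) : ℝ) ≤ ((2 * b + 2 * q + 23 : ℕ) : ℝ) := by exact_mod_cast hLb
    rw [Nat.cast_sub hr.le] at h1
    push_cast at h1
    exact h1
  have hs1 : 1 ≤ s := by
    have := C.out.2
    omega
  -- the size is small
  have hkey : (s + 1) * 2 ^ c ≤ 2 ^ (ν * b) := by
    have h1 : (s : ℝ) * 2 ^ c < 2 ^ (ν * b) := by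
      have h2 : (s : ℝ) < 2 ^ (((ν * b : ℕ) : ℝ) - (c : ℝ)) :=
        lt_of_lt_of_le hsize (Real.rpow_le_rpow_of_exponent_le (by norm_num) hexp)
      rw [Real.rpow_sub (by norm_num), Real.rpow_natCast, Real.rpow_natCast,
        lt_div_iff₀ (by positivity)] at h2
      exact h2
    have h2 : s * 2 ^ c < 2 ^ (ν * b) := by exact_mod_cast h1
    have h3 : 2 ^ c < 2 ^ (ν * b) :=
      lt_of_le_of_lt (Nat.le_mul_of_pos_left _ hs1) h2
    have h4 : c < ν * b := (Nat.pow_lt_pow_iff_right (by norm_num : 1 < 2)).1 h3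
    obtain ⟨d, hd⟩ : ∃ d, ν * b = c + d := ⟨ν * b - c, by omega⟩
    rw [hd, pow_add, mul_comm] at h2 ⊢
    exact Nat.mul_le_mul_left _ (Nat.lt_of_mul_lt_mul_left h2)
  have hs2 : s + 1 ≤ 2 ^ (ν * b) :=
    le_trans (Nat.le_mul_of_pos_right _ (by positivity)) hkey
  have hmn := hmain s C (by
    calc 2 * 2 * ((s + 1) * (2 * 2 ^ b * 2 ^ a) ^ ν)
        ≤ 2 * 2 * (2 ^ (ν * b) * (2 * 2 ^ b * 2 ^ a) ^ ν) := by
          gcongr
      _ = 2 ^ (2 * (ν * b) + ν * (1 + a) + 2) := by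
          rw [show 2 * 2 ^ b * 2 ^ a = 2 ^ (1 + b + a) by rw [pow_add, pow_add, pow_one],
            ← pow_mul, ← pow_add, show (2 : ℕ) * 2 = 2 ^ 2 by norm_num, ← pow_add]
          congr 1
          ring
      _ < 2 ^ Δ := Nat.pow_lt_pow_right (by norm_num) (by omega))
  set S := ∑ k, ∑ x, (Nat.card {t : ℕ // t < 2 ^ σ ∧
            ¬ (C.Accepts (A k t) ↔ C.Accepts (P k t x))} : ℝ) with hS
  have hXR : (Fintype.card X : ℝ) = 2 ^ (b * ν) := by
    rw [hXc]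
    push_cast
    rfl
  have herr : ((s + 1) * (1 / ((2 : ℝ) ^ (5 * q + 65))⁻¹) ^ ν +
      (2 : ℝ) ^ (b * ν) / 2 ^ (e * (j0 + 1))) * 2 ^ σ ≤ Fintype.card X := by
    rw [hXR, add_mul]
    have h1 : ((s : ℝ) + 1) * (1 / ((2 : ℝ) ^ (5 * q + 65))⁻¹) ^ ν * 2 ^ σ ≤
        2 ^ (b * ν) / 2 := by
      rw [le_div_iff₀ (by norm_num), one_div, inv_inv, ← pow_mul]
      have h2 : ((s : ℝ) + 1) * 2 ^ c ≤ 2 ^ (ν * b) := by exact_mod_cast hkey
      calc ((s : ℝ) + 1) * 2 ^ ((5 * q + 65) * ν) * 2 ^ σ * 2 = ((s : ℝ) + 1) * 2 ^ c := by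
            rw [hc, pow_add, pow_add, pow_one]
            ring
        _ ≤ 2 ^ (ν * b) := h2
        _ = _ := by rw [mul_comm]
    have h2 : (2 : ℝ) ^ (b * ν) / 2 ^ (e * (j0 + 1)) * 2 ^ σ ≤ 2 ^ (b * ν) / 2 := by
      rw [div_mul_eq_mul_div, div_le_div_iff₀ (by positivity) (by norm_num), mul_assoc]
      refine mul_le_mul_of_nonneg_left ?_ (by positivity)
      calc (2 : ℝ) ^ σ * 2 = 2 ^ (σ + 1) := by rw [pow_succ]
        _ ≤ _ := pow_le_pow_right₀ (by norm_num) hj1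
    linarith
  have h5 := mul_le_mul_of_nonneg_right herr (Nat.cast_nonneg (α := ℝ) (Fintype.card κ))
  have h6 : 2 * (Fintype.card X : ℝ) * ∑ k, ((C.changes (A k) (2 ^ σ) : ℝ) + 1) =
      2 * (Fintype.card X * Fintype.card κ +
        Fintype.card X * ∑ k, (C.changes (A k) (2 ^ σ) : ℝ)) := by
    rw [sum_add_distrib, sum_const, card_univ, nsmul_eq_mul, mul_one]
    ring
  rw [h6]
  norm_num at hmn
  norm_num at h5
  linarith

end Pool.Agent.H78.FG
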