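import Pool.Agent.H1.Mono.Enc2

/-!
# The pigeonhole formulas with any number of holes
-/

open Finset Pool.Agent.H1.Mono

namespace Pool.Agent.H78.FG

/-- the value `v` stands for the hole `π v` -/
structure Holes {a : ℕ} (h : ℕ) (π : (Fin a → Bool) → Fin a → Bool) : Prop where
  card : (univ.image π).card = h
  fib : ∀ w, (univ.filter fun v => π v = w).card ≤ 2

/-- a map with `h` values and fibres of size at most 2 -/
lemma exists_holes {a h : ℕ} (h1 : h ≤ 2 ^ a) (h2 : 2 ^ a ≤ 2 * h) :
    ∃ π : (Fin a → Bool) → Fin a → Bool, Holes h π := by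
  classical
  have hpos : 0 < 2 ^ a := by positivity
  have hh : 0 < h := by omega
  obtain ⟨e⟩ : Nonempty ((Fin a → Bool) ≃ Fin (2 ^ a)) :=
    ⟨Fintype.equivFinOfCardEq (by rw [Fintype.card_fun, Fintype.card_fin, Fintype.card_bool])⟩
  refine ⟨fun v => e.symm ⟨(e v).1 % h, lt_of_lt_of_le (Nat.mod_lt _ hh) h1⟩, ?_, ?_⟩
  · have h3 : (univ.image fun v : Fin a → Bool =>
        e.symm ⟨(e v).1 % h, lt_of_lt_of_le (Nat.mod_lt _ hh) h1⟩) =
        (univ : Finset (Fin h)).image fun k => e.symm ⟨k.1, lt_of_lt_of_le k.2 h1⟩ := by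
      ext w
      simp only [mem_image, mem_univ, true_and]
      constructor
      · rintro ⟨v, rfl⟩
        exact ⟨⟨(e v).1 % h, Nat.mod_lt _ hh⟩, rfl⟩
      · rintro ⟨k, rfl⟩
        refine ⟨e.symm ⟨k.1, lt_of_lt_of_le k.2 h1⟩, ?_⟩
        congr 2
        rw [Equiv.apply_symm_apply]
        exact Nat.mod_eq_of_lt k.2
    rw [h3, card_image_of_injective, card_univ, Fintype.card_fin]
    intro k k' hk
    have h4 := e.symm.injective hk
    rw [Fin.mk.injEq] at h4
    exact Fin.ext h4
  · intro w
    by_cases hne : ∃ v0, v0 ∈ (univ.filter fun v : Fin a → Bool =>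
        e.symm ⟨(e v).1 % h, lt_of_lt_of_le (Nat.mod_lt _ hh) h1⟩ = w)
    · obtain ⟨v0, hv0⟩ := hne
      have hr : ∀ v ∈ (univ.filter fun v : Fin a → Bool =>
          e.symm ⟨(e v).1 % h, lt_of_lt_of_le (Nat.mod_lt _ hh) h1⟩ = w),
          (e v).1 % h = (e v0).1 % h := by
        intro v hv
        have h5 := (mem_filter.1 hv).2.trans (mem_filter.1 hv0).2.symm
        have h6 := e.symm.injective h5
        rwa [Fin.mk.injEq] at h6
      have h3 : (univ.filter fun v : Fin a → Bool =>
          e.symm ⟨(e v).1 % h, lt_of_lt_of_le (Nat.mod_lt _ hh) h1⟩ = w).card ≤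
          (range 2).card := by
        refine card_le_card_of_injOn (fun v => (e v).1 / h) ?_ ?_
        · intro v _
          rw [mem_coe, mem_range]
          have h7 := (e v).2
          rw [Nat.div_lt_iff_lt_mul hh]
          omega
        · intro v hv v' hv' hd
          simp only at hd
          have h8 := hr v hv
          have h9 := hr v' hv'
          apply e.injective
          apply Fin.ext
          rw [← Nat.div_add_mod (e v).1 h, ← Nat.div_add_mod (e v').1 h, h8, h9, hd]
      rwa [card_range] at h3
    · have h3 : (univ.filter fun v : Fin a → Bool =>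
          e.symm ⟨(e v).1 % h, lt_of_lt_of_le (Nat.mod_lt _ hh) h1⟩ = w) = ∅ := by
        rw [eq_empty_iff_forall_notMem]
        exact fun v hv => hne ⟨v, hv⟩
      rw [h3]
      simp

/-- injective positions: Duplicator for the pigeonhole principle with `h` holes -/
lemma dup_holes {ν a h : ℕ} {π : (Fin a → Bool) → Fin a → Bool} (hπ : Holes h π) :
    Dup2 (ν := ν) (S := Fin a → Bool) h fun I ρ => Set.InjOn (fun i => π (ρ i)) (I : Set (Fin ν)) := by
  classical
  refine ⟨fun ρ => by simp, fun I J ρ h hJ => h.mono (by exact_mod_cast hJ), ?_, ?_⟩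
  · intro I ρ ρ' h hρ i hi j hj hij
    refine h hi hj ?_
    simp only at hij ⊢
    rw [hρ i hi, hρ j hj]
    exact hij
  · intro I ρ hI hc i
    by_cases hi : i ∈ I
    · exact ⟨ρ, fun _ _ => rfl, by rwa [insert_eq_of_mem hi]⟩
    · obtain ⟨w, hw, hwI⟩ : ∃ w ∈ univ.image π, w ∉ I.image fun j => π (ρ j) := by
        by_contra hno
        push Not at hno
        have h1 : (univ.image π).card ≤ (I.image fun j => π (ρ j)).card :=
          card_le_card fun v hv => hno v hv
        rw [hπ.card] at h1
        have h2 := card_image_le (s := I) (f := fun j => π (ρ j))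
        omega
      obtain ⟨v, -, rfl⟩ := mem_image.1 hw
      have hne : ∀ j ∈ I, j ≠ i := fun j hj hji => hi (hji ▸ hj)
      refine ⟨Function.update ρ i v, fun j hj => Function.update_of_ne (hne j hj) _ _, ?_⟩
      intro j hj k hk hjk
      rw [coe_insert, Set.mem_insert_iff] at hj hk
      simp only at hjk
      rcases hj with rfl | hj
      · rcases hk with rfl | hk
        · rfl
        · exfalso
          rw [Function.update_self, Function.update_of_ne (hne k hk)] at hjk
          exact hwI (mem_image.2 ⟨k, hk, hjk.symm⟩)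
      · rcases hk with rfl | hk
        · exfalso
          rw [Function.update_self, Function.update_of_ne (hne j hj)] at hjk
          exact hwI (mem_image.2 ⟨j, hj, hjk⟩)
        · rw [Function.update_of_ne (hne j hj), Function.update_of_ne (hne k hk)] at hjk
          exact hI hj hk hjk

/-- few `y` send two points of a small set to the same hole -/
lemma inj_holes {ν a h j : ℕ} {Q : Type} [Fintype Q] [DecidableEq Q]
    {π : (Fin a → Bool) → Fin a → Bool} (hπ : Holes h π) (I : Finset (Fin ν)) (α : Fin ν → Q)
    [DecidablePred fun y : Fin ν → Q → Fin a → Bool => ¬ Set.InjOn (fun i => π (y i (α i))) I]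
    (hI : I.card ≤ j) :
    2 ^ a * (univ.filter fun y : Fin ν → Q → Fin a → Bool =>
      ¬ Set.InjOn (fun i => π (y i (α i))) I).card ≤
      2 * j ^ 2 * Fintype.card (Fin ν → Q → Fin a → Bool) := by
  classical
  set T : ℕ := Fintype.card (Fin ν → Q → Fin a → Bool) with hT
  let E : Fin ν × Fin ν → Finset (Fin ν → Q → Fin a → Bool) := fun q =>
    univ.filter fun y => π (y q.1 (α q.1)) = π (y q.2 (α q.2))
  have hE : ∀ q : Fin ν × Fin ν, q.1 ≠ q.2 → 2 ^ a * (E q).card ≤ 2 * T := by
    intro q hq
    have h1 : ((univ : Finset (Fin a → Bool)) ×ˢ (E q)).card = 2 ^ a * (E q).card := by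
      rw [Finset.card_product, Finset.card_univ]
      simp
    rw [← h1, hT, ← Finset.card_univ]
    refine (card_le_mul_card_image (f := fun r : (Fin a → Bool) × (Fin ν → Q → Fin a → Bool) =>
      Function.update r.2 q.1 (Function.update (r.2 q.1) (α q.1) r.1)) _ 2 ?_).trans
      (Nat.mul_le_mul_left _ (card_le_univ _))
    intro y _
    -- an element of the fibre is determined by the value of its second component at `α q.1`
    have h2 : (((univ : Finset (Fin a → Bool)) ×ˢ (E q)).filter fun r =>
        Function.update r.2 q.1 (Function.update (r.2 q.1) (α q.1) r.1) = y).card ≤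
        (univ.filter fun v => π v = π (y q.2 (α q.2))).card := by
      refine card_le_card_of_injOn (fun r => r.2 q.1 (α q.1)) ?_ ?_
      · intro r hr
        have hr1 := mem_filter.1 (mem_coe.1 hr)
        have hr2 := (mem_filter.1 (mem_product.1 hr1.1).2).2
        rw [mem_coe, mem_filter]
        refine ⟨mem_univ _, ?_⟩
        rw [hr2, ← hr1.2, Function.update_of_ne (Ne.symm hq)]
      · intro r hr r' hr' hrr
        simp only at hrr
        have hr1 := (mem_filter.1 (mem_coe.1 hr)).2
        have hr1' := (mem_filter.1 (mem_coe.1 hr')).2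
        have hh := hr1.trans hr1'.symm
        have hat : ∀ i : Fin ν, i ≠ q.1 → r.2 i = r'.2 i := by
          intro i hi
          have := congrFun hh i
          simpa only [Function.update_of_ne hi] using this
        have hq1 := congrFun hh q.1
        simp only [Function.update_self] at hq1
        have hv : r.1 = r'.1 := by
          have := congrFun hq1 (α q.1)
          simpa only [Function.update_self] using this
        refine Prod.ext hv ?_
        funext i
        by_cases hi : i = q.1
        · subst hi
          funext b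
          by_cases hb : b = α q.1
          · subst hb
            exact hrr
          · have := congrFun hq1 b
            simpa only [Function.update_of_ne hb] using this
        · exact hat i hi
    exact h2.trans (hπ.fib _)
  have hsub : (univ.filter fun y : Fin ν → Q → Fin a → Bool =>
      ¬ Set.InjOn (fun i => π (y i (α i))) I) ⊆ I.offDiag.biUnion E := by
    intro y hy
    have hy2 := (Finset.mem_filter.mp hy).2
    unfold Set.InjOn at hy2
    push Not at hy2
    obtain ⟨i, hi, i', hi', heq, hne⟩ := hy2
    refine Finset.mem_biUnion.mpr ⟨(i, i'), Finset.mem_offDiag.mpr ⟨hi, hi', hne⟩, ?_⟩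
    exact Finset.mem_filter.mpr ⟨Finset.mem_univ _, heq⟩
  calc 2 ^ a * (univ.filter fun y : Fin ν → Q → Fin a → Bool =>
      ¬ Set.InjOn (fun i => π (y i (α i))) I).card
      ≤ 2 ^ a * (I.offDiag.biUnion E).card := Nat.mul_le_mul_left _ (Finset.card_le_card hsub)
    _ ≤ 2 ^ a * ∑ q ∈ I.offDiag, (E q).card := Nat.mul_le_mul_left _ Finset.card_biUnion_le
    _ = ∑ q ∈ I.offDiag, 2 ^ a * (E q).card := by rw [Finset.mul_sum]
    _ ≤ ∑ _q ∈ I.offDiag, 2 * T := Finset.sum_le_sum fun q hq =>
        hE q (Finset.mem_offDiag.mp hq).2.2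
    _ = I.offDiag.card * (2 * T) := by rw [Finset.sum_const, smul_eq_mul]
    _ ≤ j ^ 2 * (2 * T) := by
        refine Nat.mul_le_mul_right _ ?_
        rw [Finset.offDiag_card]
        calc I.card * I.card - I.card ≤ I.card * I.card := Nat.sub_le _ _
          _ ≤ j * j := Nat.mul_le_mul hI hI
          _ = j ^ 2 := by ring
    _ = _ := by ring

end Pool.Agent.H78.FG
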