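import Pool.Agent.H78.FG.Defs
import Pool.Agent.H1.Mono.Enc2

/-!
# The monotone shadow of a circuit with free gates at an input
-/

open Finset Pool.Agent.H1.Mono

namespace Pool.Agent.H78.FG

variable {ι : Type} {s : ℕ}

/-- the output gate and the gates which are arguments of free gates -/
def FCircuit.Marked (C : FCircuit ι s) (u : Fin s) : Prop := u = C.out ∨ C.Arg u

lemma FCircuit.same_iff (C : FCircuit ι s) (A B : ι → Bool) :
    C.Same A B ↔ (∀ i, C.Read i → A i = B i) ∧ ∀ u, C.Marked u → (C.Val A u ↔ C.Val B u) := by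
  unfold FCircuit.Same FCircuit.Marked
  refine and_congr_right fun _ => ?_
  constructor
  · rintro ⟨h1, h2⟩ u (rfl | hu)
    · exact h2
    · exact h1 u hu
  · exact fun h => ⟨fun u hu => h u (Or.inr hu), h C.out (Or.inl rfl)⟩

/-- the inputs read by free gates and false on `Z` -/
noncomputable def FCircuit.readF (C : FCircuit ι s) (Z : ι → Bool) : Finset ι := by
  classical
  exact (univ.biUnion fun t => if C.free t = true then C.ins t else ∅).filter fun i => Z i = false

lemma FCircuit.mem_readF (C : FCircuit ι s) (Z : ι → Bool) (i : ι) :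
    i ∈ C.readF Z ↔ C.Read i ∧ Z i = false := by
  classical
  unfold FCircuit.readF FCircuit.Read
  rw [mem_filter, mem_biUnion]
  refine and_congr_left fun _ => ?_
  constructor
  · rintro ⟨t, -, ht⟩
    by_cases h : C.free t = true
    · rw [if_pos h] at ht
      exact ⟨t, h, ht⟩
    · rw [if_neg h] at ht
      simp at ht
  · rintro ⟨t, h, ht⟩
    exact ⟨t, mem_univ _, by rwa [if_pos h]⟩

/-- the marked gates which are false on `Z` -/
noncomputable def FCircuit.markF (C : FCircuit ι s) (Z : ι → Bool) : Finset (Fin s) := by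
  classical
  exact univ.filter fun u => C.Marked u ∧ ¬ C.Val Z u

lemma FCircuit.mem_markF (C : FCircuit ι s) (Z : ι → Bool) (u : Fin s) :
    u ∈ C.markF Z ↔ C.Marked u ∧ ¬ C.Val Z u := by
  classical
  unfold FCircuit.markF
  rw [mem_filter]
  simp

/-- the shadow: the free gates are replaced by their values on `Z`; the output gate, which is new,
tells whether a marked gate or a read input has changed -/
noncomputable def FCircuit.shadow (C : FCircuit ι s) (Z : ι → Bool) : MonCircuit ι (s + 1) where
  isAnd t := by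
    classical
    exact if h : t.1 < s then
      (if C.free ⟨t.1, h⟩ = true then decide (C.Val Z ⟨t.1, h⟩) else C.isAnd ⟨t.1, h⟩) else false
  ins t := if h : t.1 < s then (if C.free ⟨t.1, h⟩ = true then ∅ else C.ins ⟨t.1, h⟩) else
    C.readF Z
  gates t := if h : t.1 < s then
      (if C.free ⟨t.1, h⟩ = true then ∅ else (C.gates ⟨t.1, h⟩).map Fin.castSuccEmb) else
    (C.markF Z).map Fin.castSuccEmb
  lt t u hu := by
    by_cases h : t.1 < s
    · rw [dif_pos h] at hu
      by_cases h2 : C.free ⟨t.1, h⟩ = true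
      · rw [if_pos h2] at hu
        simp at hu
      · rw [if_neg h2, mem_map] at hu
        obtain ⟨v, hv, rfl⟩ := hu
        have h3 := C.lt _ v hv
        rw [Fin.lt_def] at h3 ⊢
        exact h3
    · rw [dif_neg h, mem_map] at hu
      obtain ⟨v, -, rfl⟩ := hu
      rw [Fin.lt_def]
      have h3 := v.2
      have h4 := t.2
      simp only [Fin.castSuccEmb_apply, Fin.val_castSucc]
      omega
  out := Fin.last s

lemma FCircuit.shadow_free (C : FCircuit ι s) (Z A : ι → Bool) {t : Fin s}
    (h : C.free t = true) : (C.shadow Z).Val A t.castSucc ↔ C.Val Z t := by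
  classical
  have hlt : t.castSucc.1 < s := t.2
  have hins : (C.shadow Z).ins t.castSucc = ∅ := by
    change (if h : t.castSucc.1 < s then _ else _) = _
    rw [dif_pos hlt, if_pos (show C.free ⟨t.castSucc.1, hlt⟩ = true from h)]
  have hgates : (C.shadow Z).gates t.castSucc = ∅ := by
    change (if h : t.castSucc.1 < s then _ else _) = _
    rw [dif_pos hlt, if_pos (show C.free ⟨t.castSucc.1, hlt⟩ = true from h)]
  have hand : (C.shadow Z).isAnd t.castSucc = decide (C.Val Z t) := by
    change (if h : t.castSucc.1 < s then _ else _) = _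
    rw [dif_pos hlt, if_pos (show C.free ⟨t.castSucc.1, hlt⟩ = true from h)]
    rfl
  by_cases hv : C.Val Z t
  · rw [MonCircuit.val_and _ _ (by rw [hand]; simpa using hv), hins, hgates]
    simpa using hv
  · rw [MonCircuit.val_or _ _ (by rw [hand]; simpa using hv), hins, hgates]
    simpa using hv

lemma FCircuit.shadow_and (C : FCircuit ι s) (Z A : ι → Bool) {t : Fin s}
    (h : ¬ C.free t = true) (h2 : C.isAnd t = true) :
    (C.shadow Z).Val A t.castSucc ↔ (∀ i ∈ C.ins t, A i = true) ∧
      ∀ u ∈ C.gates t, (C.shadow Z).Val A u.castSucc := by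
  classical
  have hlt : t.castSucc.1 < s := t.2
  have hins : (C.shadow Z).ins t.castSucc = C.ins t := by
    change (if h : t.castSucc.1 < s then _ else _) = _
    rw [dif_pos hlt, if_neg (show ¬ C.free ⟨t.castSucc.1, hlt⟩ = true from h)]
    rfl
  have hgates : (C.shadow Z).gates t.castSucc = (C.gates t).map Fin.castSuccEmb := by
    change (if h : t.castSucc.1 < s then _ else _) = _
    rw [dif_pos hlt, if_neg (show ¬ C.free ⟨t.castSucc.1, hlt⟩ = true from h)]
    rfl
  have hand : (C.shadow Z).isAnd t.castSucc = C.isAnd t := by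
    change (if h : t.castSucc.1 < s then _ else _) = _
    rw [dif_pos hlt, if_neg (show ¬ C.free ⟨t.castSucc.1, hlt⟩ = true from h)]
    rfl
  rw [MonCircuit.val_and _ _ (by rw [hand]; exact h2), hins, hgates]
  simp

lemma FCircuit.shadow_or (C : FCircuit ι s) (Z A : ι → Bool) {t : Fin s}
    (h : ¬ C.free t = true) (h2 : ¬ C.isAnd t = true) :
    (C.shadow Z).Val A t.castSucc ↔ (∃ i ∈ C.ins t, A i = true) ∨
      ∃ u ∈ C.gates t, (C.shadow Z).Val A u.castSucc := by
  classical
  have hlt : t.castSucc.1 < s := t.2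
  have hins : (C.shadow Z).ins t.castSucc = C.ins t := by
    change (if h : t.castSucc.1 < s then _ else _) = _
    rw [dif_pos hlt, if_neg (show ¬ C.free ⟨t.castSucc.1, hlt⟩ = true from h)]
    rfl
  have hgates : (C.shadow Z).gates t.castSucc = (C.gates t).map Fin.castSuccEmb := by
    change (if h : t.castSucc.1 < s then _ else _) = _
    rw [dif_pos hlt, if_neg (show ¬ C.free ⟨t.castSucc.1, hlt⟩ = true from h)]
    rfl
  have hand : (C.shadow Z).isAnd t.castSucc = C.isAnd t := by
    change (if h : t.castSucc.1 < s then _ else _) = _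
    rw [dif_pos hlt, if_neg (show ¬ C.free ⟨t.castSucc.1, hlt⟩ = true from h)]
    rfl
  rw [MonCircuit.val_or _ _ (by rw [hand]; exact h2), hins, hgates]
  simp

lemma FCircuit.shadow_last (C : FCircuit ι s) (Z A : ι → Bool) :
    (C.shadow Z).Accepts A ↔ (∃ i, C.Read i ∧ Z i = false ∧ A i = true) ∨
      ∃ u, C.Marked u ∧ ¬ C.Val Z u ∧ (C.shadow Z).Val A u.castSucc := by
  classical
  have hlt : ¬ (Fin.last s).1 < s := by simp
  have hins : (C.shadow Z).ins (Fin.last s) = C.readF Z := by
    change (if h : (Fin.last s).1 < s then _ else _) = _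
    rw [dif_neg hlt]
  have hgates : (C.shadow Z).gates (Fin.last s) = (C.markF Z).map Fin.castSuccEmb := by
    change (if h : (Fin.last s).1 < s then _ else _) = _
    rw [dif_neg hlt]
  have hand : (C.shadow Z).isAnd (Fin.last s) = false := by
    change (if h : (Fin.last s).1 < s then _ else _) = _
    rw [dif_neg hlt]
  change (C.shadow Z).Val A (Fin.last s) ↔ _
  rw [MonCircuit.val_or _ _ (by rw [hand]; simp), hins, hgates]
  constructor
  · rintro (⟨i, hi, h1⟩ | ⟨u, hu, h1⟩)
    · rw [C.mem_readF] at hi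
      exact Or.inl ⟨i, hi.1, hi.2, h1⟩
    · rw [mem_map] at hu
      obtain ⟨v, hv, rfl⟩ := hu
      rw [C.mem_markF] at hv
      exact Or.inr ⟨v, hv.1, hv.2, h1⟩
  · rintro (⟨i, h1, h2, h3⟩ | ⟨u, h1, h2, h3⟩)
    · exact Or.inl ⟨i, (C.mem_readF _ _).2 ⟨h1, h2⟩, h3⟩
    · exact Or.inr ⟨u.castSucc, mem_map.2 ⟨u, (C.mem_markF _ _).2 ⟨h1, h2⟩, rfl⟩, h3⟩

/-- if no argument of a free gate differs on `Z` and `A`, the shadow computes the gates on `A` -/
lemma FCircuit.shadow_val (C : FCircuit ι s) (Z A : ι → Bool)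
    (h1 : ∀ i, C.Read i → A i = Z i) (t : Fin s)
    (h2 : ∀ u < t, C.Marked u → ((C.shadow Z).Val A u.castSucc ↔ C.Val A u) →
      (C.Val A u ↔ C.Val Z u)) :
    (C.shadow Z).Val A t.castSucc ↔ C.Val A t := by
  induction t using WellFoundedLT.induction with
  | ind t ih =>
    have ih' : ∀ u ∈ C.gates t, ((C.shadow Z).Val A u.castSucc ↔ C.Val A u) := fun u hu =>
      ih u (C.lt t u hu) fun v hv => h2 v (hv.trans (C.lt t u hu))
    by_cases hf : C.free t = true
    · rw [C.shadow_free Z A hf, C.val_free A hf, C.val_free Z hf]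
      have e1 : {i | i ∈ C.ins t ∧ A i = true} = {i | i ∈ C.ins t ∧ Z i = true} := by
        ext i
        simp only [Set.mem_ofPred_eq]
        refine and_congr_right fun hi => ?_
        rw [h1 i ⟨t, hf, hi⟩]
      have e2 : {u | u ∈ C.gates t ∧ C.Val A u} = {u | u ∈ C.gates t ∧ C.Val Z u} := by
        ext u
        simp only [Set.mem_ofPred_eq]
        refine and_congr_right fun hu => ?_
        exact h2 u (C.lt t u hu) (Or.inr ⟨t, hf, hu⟩) (ih' u hu)
      rw [e1, e2]
    · by_cases ha : C.isAnd t = true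
      · rw [C.shadow_and Z A hf ha, C.val_and A hf ha]
        refine and_congr_right fun _ => ?_
        exact forall₂_congr fun u hu => ih' u hu
      · rw [C.shadow_or Z A hf ha, C.val_or A hf ha]
        refine or_congr_right ?_
        constructor
        · rintro ⟨u, hu, h⟩
          exact ⟨u, hu, (ih' u hu).1 h⟩
        · rintro ⟨u, hu, h⟩
          exact ⟨u, hu, (ih' u hu).2 h⟩

lemma FCircuit.Same.refl (C : FCircuit ι s) (A : ι → Bool) : C.Same A A :=
  ⟨fun _ _ => rfl, fun _ _ => Iff.rfl, Iff.rfl⟩

lemma FCircuit.shadow_self (C : FCircuit ι s) (Z : ι → Bool) (t : Fin s) :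
    (C.shadow Z).Val Z t.castSucc ↔ C.Val Z t :=
  C.shadow_val Z Z (fun _ _ => rfl) t fun _ _ _ _ => Iff.rfl

/-- above `Z` the shadow accepts exactly the inputs on which something has changed -/
theorem FCircuit.shadow_accepts (C : FCircuit ι s) {Z A : ι → Bool}
    (hZA : ∀ i, Z i = true → A i = true) : (C.shadow Z).Accepts A ↔ ¬ C.Same Z A := by
  rw [C.same_iff]
  constructor
  · intro hacc hsame
    have hval : ∀ t : Fin s, (C.shadow Z).Val A t.castSucc ↔ C.Val A t := fun t =>
      C.shadow_val Z A (fun i hi => (hsame.1 i hi).symm) t fun u _ hu _ => (hsame.2 u hu).symm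
    rw [C.shadow_last] at hacc
    rcases hacc with ⟨i, h1, h2, h3⟩ | ⟨u, h1, h2, h3⟩
    · rw [← hsame.1 i h1, h2] at h3
      exact absurd h3 (by simp)
    · exact h2 ((hsame.2 u h1).2 ((hval u).1 h3))
  · intro hns
    by_contra hrej
    apply hns
    rw [C.shadow_last, not_or] at hrej
    obtain ⟨h1, h2⟩ := hrej
    have hin : ∀ i, C.Read i → A i = Z i := by
      intro i hi
      by_cases hz : Z i = true
      · rw [hz, hZA i hz]
      · have hz' : Z i = false := by simpa using hz
        rw [hz']
        by_contra hA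
        exact h1 ⟨i, hi, hz', by simpa using hA⟩
    have hmark : ∀ u, C.Marked u → ((C.shadow Z).Val A u.castSucc ↔ C.Val A u) →
        (C.Val A u ↔ C.Val Z u) := by
      intro u hu hiff
      constructor
      · intro h3
        by_contra h4
        exact h2 ⟨u, hu, h4, hiff.2 h3⟩
      · intro h3
        rw [← hiff]
        exact (C.shadow Z).mono hZA _ ((C.shadow_self Z u).2 h3)
    have hval : ∀ t : Fin s, (C.shadow Z).Val A t.castSucc ↔ C.Val A t := fun t =>
      C.shadow_val Z A hin t fun u _ => hmark u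
    exact ⟨fun i hi => (hin i hi).symm, fun u hu => (hmark u hu (hval u)).symm⟩

end Pool.Agent.H78.FG
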